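import Mathlib
import Pool.Agent.H52.MF.Count

/-!
# The number of types orthogonal modulo `l` to a stable space (module LP CntM)

The version modulo the prime `l` of `count_fourier` and `count_odl` in `Pool/Agent/H52/MF/Count.lean`
(there the stable space is rational and the Fourier analysis is modulo a large prime `N`; here the space
`U` consists of functions with values in `ZMod l` and the Fourier analysis is modulo `l` itself, so it is
simpler: no integral bases).

PROOF.  (1) Points: `exists_points` of `Pool/Agent/H52/MF/Lin.lean` over the field `ZMod l`: a basis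
`w · 0, ..., w · (d-1)` of `U` and points `y 0, ..., y (d-1)` in the section `R` such that the matrix
`w (π (y j)) i` is invertible for every `π ∈ 𝒢` (for `π = 1` since a function in `U` that vanishes on `R`
is zero, so evaluation at some `d` points of `R` is an isomorphism; for `π` since `U` is stable).
(2) `count_le` of `Pool/Agent/H52/MF/Cnt.lean` with `w : X → Fin d → ZMod l` (same proof).
(3) `prod_le_avg` and `sum_fN_pow` (with `N = l`, `r < l`) exactly as in the proof of `count_fourier`.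
`count_mod_odl`: as `count_odl` (signs on the `d` points `y j` are determined modulo `l`, and `1 ≠ -1`
modulo `l`, in fact `e (y j) ∈ {-2, 0, 2}` and `2 ≠ 0`).
-/

namespace Pool.Agent.H52.LP

open ZMod Pool.Agent.H52.MF

theorem exists_points_mod {K : Type} [Field K] {X : Type} [Fintype X] (W : Submodule K (X → K))
    (R : Finset X) (hRW : ∀ f ∈ W, (∀ x ∈ R, f x = 0) → f = 0) (d : ℕ)
    (hd : Module.finrank K W = d) :
    ∃ (w : X → Fin d → K) (y : Fin d → X), (∀ i, (fun x => w x i) ∈ W) ∧ (∀ j, y j ∈ R) ∧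
      Function.Injective y ∧
      ∀ π : Equiv.Perm X, (∀ f ∈ W, (fun x => f (π x)) ∈ W) →
        (Matrix.of fun i j => w (π (y j)) i).det ≠ 0 := by
  classical
  let b : Module.Basis (Fin d) K W := Module.finBasisOfFinrankEq K W hd
  -- the vectors
  set v : X → Fin d → K := fun x i => (b i : X → K) x with hv
  have hcomb : ∀ (l : Fin d → K) (x : X), ((∑ i, l i • b i : W) : X → K) x = ∑ i, l i * v x i := by
    intro l x
    simp [hv]
  have hzero : ∀ l : Fin d → K, (∑ i, l i • b i : W) = 0 → l = 0 := by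
    intro l hl
    have := Fintype.linearIndependent_iff.1 b.linearIndependent l hl
    exact funext this
  have hspan : Submodule.span K (v '' (R : Set X)) = ⊤ := by
    by_contra hne
    obtain ⟨f, hf, hker⟩ := Submodule.exists_le_ker_of_lt_top _ (lt_top_iff_ne_top.2 hne)
    apply hf
    have h1 : ∀ x ∈ R, f (v x) = 0 := fun x hx =>
      LinearMap.mem_ker.1 (hker (Submodule.subset_span ⟨x, hx, rfl⟩))
    set l : Fin d → K := fun i => f (fun j => if i = j then 1 else 0) with hl
    have h2 : (∑ i, l i • b i : W) = 0 := by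
      apply Subtype.ext
      refine hRW _ (SetLike.coe_mem _) fun x hx => ?_
      rw [hcomb]
      have h3 := h1 x hx
      rw [LinearMap.pi_apply_eq_sum_univ f] at h3
      rw [← h3]
      refine Finset.sum_congr rfl fun i _ => ?_
      rw [smul_eq_mul, mul_comm]
    have h3 := hzero l h2
    apply LinearMap.ext
    intro u
    rw [LinearMap.pi_apply_eq_sum_univ f, LinearMap.zero_apply]
    exact Finset.sum_eq_zero fun i _ => by
      have : f (fun j => if i = j then 1 else 0) = 0 := congrFun h3 i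
      rw [this, smul_zero]
  obtain ⟨s, hs, hspan', hli⟩ := exists_linearIndependent K (v '' (R : Set X))
  rw [hspan] at hspan'
  have hsfin : s.Finite := (Set.toFinite _).subset hs
  have : Fintype s := hsfin.fintype
  let B : Module.Basis s K (Fin d → K) := Module.Basis.mk hli (by
    rw [Subtype.range_coe]; exact hspan'.ge)
  have hcard : Fintype.card s = d := by
    have := Module.finrank_eq_card_basis B
    rw [Module.finrank_fin_fun] at this
    exact this.symm
  let e : Fin d ≃ s := (Fintype.equivFinOfCardEq hcard).symm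
  have hy : ∀ j : Fin d, ∃ x ∈ R, v x = (e j : Fin d → K) := fun j => by
    obtain ⟨x, hx, hx'⟩ := hs (e j).2
    exact ⟨x, hx, hx'⟩
  choose y hyR hyv using hy
  have hind : LinearIndependent K (fun j : Fin d => v (y j)) := by
    have h1 : (fun j : Fin d => v (y j)) = (Subtype.val : s → Fin d → K) ∘ e := by
      funext j; exact hyv j
    rw [h1]
    exact hli.comp e e.injective
  -- nondegeneracy at `y`
  have hdet0 : ∀ l : Fin d → K, (∀ j, ∑ i, l i * v (y j) i = 0) → l = 0 := by
    intro l hl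
    set M : Matrix (Fin d) (Fin d) K := Matrix.of fun i j => v (y j) i with hM
    have hMdet : M.det ≠ 0 := by
      intro h0
      obtain ⟨m, hm, hm0⟩ := Matrix.exists_mulVec_eq_zero_iff.2 h0
      apply hm
      rw [Fintype.linearIndependent_iff] at hind
      funext j
      refine hind m ?_ j
      funext i
      have := congrFun hm0 i
      simp only [Matrix.mulVec, dotProduct, hM, Matrix.of_apply, Pi.zero_apply] at this
      simp only [Finset.sum_apply, Pi.smul_apply, smul_eq_mul, Pi.zero_apply]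
      rw [← this]
      exact Finset.sum_congr rfl fun j _ => mul_comm _ _
    by_contra hne
    apply hMdet
    refine Matrix.exists_vecMul_eq_zero_iff.1 ⟨l, hne, ?_⟩
    funext j
    simp only [Matrix.vecMul, dotProduct, hM, Matrix.of_apply, Pi.zero_apply]
    exact hl j
  refine ⟨v, y, fun i => SetLike.coe_mem _, hyR, ?_, fun π hπ => ?_⟩
  · intro j j' hjj
    exact hind.injective (by simp only [hjj])
  · intro h1
    obtain ⟨l, hl, hl0⟩ := Matrix.exists_vecMul_eq_zero_iff.2 h1
    apply hl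
    have hu : (fun x => ((∑ i, l i • b i : W) : X → K) (π x)) ∈ W := hπ _ (SetLike.coe_mem _)
    set u : W := ⟨_, hu⟩ with huu
    have h3 : ∀ j, ((u : W) : X → K) (y j) = 0 := by
      intro j
      have h4 := congrFun hl0 j
      simp only [Matrix.vecMul, dotProduct, Matrix.of_apply, Pi.zero_apply] at h4
      have h5 : (u : X → K) (y j) = ∑ i, l i * v (π (y j)) i := hcomb l (π (y j))
      rw [h5]
      exact h4
    have h4 : u = 0 := by
      have h5 : (∑ i, b.repr u i • b i) = u := b.sum_repr u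
      have h6 : (fun i => b.repr u i) = 0 := by
        refine hdet0 _ fun j => ?_
        rw [← hcomb (fun i => b.repr u i) (y j), h5]
        exact h3 j
      rw [← h5]
      exact Finset.sum_eq_zero fun i _ => by rw [congrFun h6 i, Pi.zero_apply, zero_smul]
    refine hzero l ?_
    apply Subtype.ext
    funext x
    have h5 := congrArg (fun t : W => (t : X → K) (π.symm x)) h4
    simp only [huu, Equiv.apply_symm_apply] at h5
    exact h5

open Classical in
theorem count_le_mod (N : ℕ) [NeZero N] {X : Type} (R : Finset X) {d : ℕ}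
    (w : X → Fin d → ZMod N) :
    ((R.powerset.filter fun S => ∀ i, ∑ x ∈ S, w x i = ∑ x ∈ R \ S, w x i).card : ℝ) * N ^ d ≤
      ∑ a : Fin d → ZMod N, ∏ x ∈ R, (2 * fN N (∑ i, a i * w x i)) := by
  -- the exponent
  set L : (Fin d → ZMod N) → X → ZMod N := fun a x => ∑ i, a i * w x i with hL
  set V : Finset X → Fin d → ZMod N := fun S i => ∑ x ∈ S, w x i - ∑ x ∈ R \ S, w x i with hV
  have h1 : ∀ (a : Fin d → ZMod N) (S : Finset X), ∑ i, a i * V S i =
      ∑ x ∈ S, L a x - ∑ x ∈ R \ S, L a x := by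
    intro a S
    simp only [hV, hL]
    rw [Finset.sum_comm (s := S), Finset.sum_comm (s := R \ S), ← Finset.sum_sub_distrib]
    refine Finset.sum_congr rfl fun i _ => ?_
    rw [mul_sub, Finset.mul_sum, Finset.mul_sum]
  have h2 : ∀ a : Fin d → ZMod N, ∑ S ∈ R.powerset, (stdAddChar (∑ i, a i * V S i) : ℂ) =
      ∏ x ∈ R, ((stdAddChar (L a x) : ℂ) + stdAddChar (-L a x)) := by
    intro a
    rw [Finset.prod_add]
    refine Finset.sum_congr rfl fun S _ => ?_
    rw [h1, sub_eq_add_neg, AddChar.map_add_eq_mul, char_sum, ← Finset.sum_neg_distrib,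
      char_sum]
  have h3 : ∑ S ∈ R.powerset, (if V S = 0 then (N : ℂ) ^ d else 0) =
      ∑ a : Fin d → ZMod N, ∏ x ∈ R, ((stdAddChar (L a x) : ℂ) + stdAddChar (-L a x)) := by
    rw [Finset.sum_congr rfl fun a _ => (h2 a).symm, Finset.sum_comm]
    refine Finset.sum_congr rfl fun S _ => ?_
    rw [sum_char_vec]
  have h4 : (((R.powerset.filter fun S => V S = 0).card : ℝ) * N ^ d : ℝ) ≤
      ∑ a : Fin d → ZMod N, ∏ x ∈ R, (2 * fN N (L a x)) := by
    have h5 : (((R.powerset.filter fun S => V S = 0).card : ℝ) * N ^ d : ℝ) =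
        ‖∑ S ∈ R.powerset, (if V S = 0 then (N : ℂ) ^ d else 0)‖ := by
      rw [← Finset.sum_filter, Finset.sum_const, nsmul_eq_mul, norm_mul, norm_pow,
        Complex.norm_natCast, Complex.norm_natCast]
    rw [h5, h3]
    refine (norm_sum_le _ _).trans (Finset.sum_le_sum fun a _ => ?_)
    rw [norm_prod]
    refine le_of_eq (Finset.prod_congr rfl fun x _ => ?_)
    unfold fN
    ring
  refine le_trans ?_ h4
  refine mul_le_mul_of_nonneg_right ?_ (by positivity)
  have : (R.powerset.filter fun S => ∀ i, ∑ x ∈ S, w x i = ∑ x ∈ R \ S, w x i) ⊆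
      (R.powerset.filter fun S => V S = 0) := by
    intro S hS
    rw [Finset.mem_filter] at hS ⊢
    refine ⟨hS.1, funext fun i => ?_⟩
    simp only [hV, hS.2 i, sub_self, Pi.zero_apply]
  exact_mod_cast Finset.card_le_card this

open Classical in
theorem count_mod {X : Type} [Fintype X] (c : X → X) (hcc : ∀ x, c (c x) = x)
    (hc : ∀ x, c x ≠ x) (𝒢 : Subgroup (Equiv.Perm X))
    (htr : ∀ x y, ∃ π ∈ 𝒢, π x = y) (g : ℕ) (hg1 : 1 ≤ g) (hg : Fintype.card X = 2 * g)
    (l : ℕ) [Fact l.Prime] (hl : Odd l) (U : Submodule (ZMod l) (X → ZMod l))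
    (hodd : ∀ f ∈ U, ∀ x, f (c x) = - f x) (hst : ∀ π ∈ 𝒢, ∀ f ∈ U, (fun x => f (π x)) ∈ U)
    (d : ℕ) (hd : Module.finrank (ZMod l) U = d) (r : ℕ) (hr : 2 * r * d ≤ g) (hrl : r < l) :
    (Nat.card {Φ : Set X // (∀ x, c x ∈ Φ ↔ x ∉ Φ) ∧
        ∀ f ∈ U, ∑ x, (if x ∈ Φ then f x else 0) = 0} : ℝ) ≤
      2 ^ g * (((2 * r).choose r : ℝ) / 4 ^ r) ^ d := by
  have hlp : l.Prime := Fact.out
  have : NeZero l := ⟨hlp.ne_zero⟩
  obtain ⟨R, hR⟩ := exists_section c hcc hc
  have hRc := card_R c hcc R hR g hg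
  have h2l : (2 : ZMod l) ≠ 0 := by
    intro h
    have h1 : ((2 : ℕ) : ZMod l) = 0 := by exact_mod_cast h
    rw [ZMod.natCast_eq_zero_iff] at h1
    have h2 := (Nat.prime_dvd_prime_iff_eq hlp Nat.prime_two).1 h1
    rw [h2] at hl
    exact absurd hl (by decide)
  have hRW : ∀ f ∈ U, (∀ x ∈ R, f x = 0) → f = 0 := by
    intro f hf h
    funext x
    by_cases hx : x ∈ R
    · exact h x hx
    · have h1 := h (c x) ((hR x).2 hx)
      rw [hodd f hf, neg_eq_zero] at h1
      exact h1
  obtain ⟨w, y, hwW, hyR, hyinj, hdet⟩ := exists_points_mod U R hRW d hd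
  set P : Finset (Equiv.Perm X) := Finset.univ.filter (fun π => π ∈ 𝒢) with hP
  have hPm : ∀ π, π ∈ P ↔ π ∈ 𝒢 := by intro π; simp [hP]
  have hPpos : 0 < P.card := Finset.card_pos.2 ⟨1, (hPm 1).2 (Subgroup.one_mem _)⟩
  -- the phases
  set L : (Fin d → ZMod l) → X → ZMod l := fun a x => ∑ i, a i * w x i with hL
  have hLc : ∀ a x, L a (c x) = - L a x := by
    intro a x
    simp only [hL]
    rw [← Finset.sum_neg_distrib]
    refine Finset.sum_congr rfl fun i _ => ?_
    have h2 : w (c x) i = - w x i := hodd _ (hwW i) x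
    rw [h2]
    ring
  have h1 := count_le_mod l R w
  have h2 : ∀ a : Fin d → ZMod l, (∏ x ∈ R, fN l (L a x)) * P.card ≤
      ∑ π ∈ P, ∏ j, fN l (L a (π (y j))) ^ (2 * r) := fun a =>
    prod_le_avg c hcc 𝒢 htr g hg1 hg R hR (fun x => fN l (L a x)) (fun x => fN_nonneg l _)
      (fun x => fN_le_one l _) (fun x => by rw [hLc, fN_neg]) d r hr y
  have h3 : ∀ π ∈ P, ∑ a : Fin d → ZMod l, ∏ j, fN l (L a (π (y j))) ^ (2 * r) =
      (l * (((2 * r).choose r : ℝ) / 4 ^ r)) ^ d := by
    intro π hπ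
    set A : Matrix (Fin d) (Fin d) (ZMod l) := Matrix.of fun i j => w (π (y j)) i with hA
    have hAdet : IsUnit A.det := (hdet π (hst π ((hPm π).1 hπ))).isUnit
    have hbij : Function.Bijective (fun a : Fin d → ZMod l => Matrix.vecMul a A) := by
      refine Finite.injective_iff_bijective.1 ?_
      exact Matrix.vecMul_injective_of_isUnit ((Matrix.isUnit_iff_isUnit_det A).2 hAdet)
    have h6 := Function.Bijective.sum_comp hbij (fun b : Fin d → ZMod l => ∏ j, fN l (b j) ^ (2 * r))
    have h7 : ∀ a : Fin d → ZMod l, ∏ j, fN l (Matrix.vecMul a A j) ^ (2 * r) =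
        ∏ j, fN l (L a (π (y j))) ^ (2 * r) := fun a => rfl
    rw [Finset.sum_congr rfl fun a _ => h7 a] at h6
    rw [h6, ← sum_fN_pow l r hl hrl, Fintype.sum_pow]
  have h4 : (∑ a : Fin d → ZMod l, ∏ x ∈ R, fN l (L a x)) * P.card ≤
      P.card * (l * (((2 * r).choose r : ℝ) / 4 ^ r)) ^ d := by
    rw [Finset.sum_mul]
    refine (Finset.sum_le_sum fun a _ => h2 a).trans (le_of_eq ?_)
    rw [Finset.sum_comm, Finset.sum_congr rfl h3, Finset.sum_const, nsmul_eq_mul]
  have h5 : (∑ a : Fin d → ZMod l, ∏ x ∈ R, fN l (L a x)) ≤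
      (l * (((2 * r).choose r : ℝ) / 4 ^ r)) ^ d := by
    have hP' : (0 : ℝ) < P.card := by exact_mod_cast hPpos
    rw [mul_comm] at h4
    exact le_of_mul_le_mul_left h4 hP'
  have h6 : ∑ a : Fin d → ZMod l, ∏ x ∈ R, (2 * fN l (L a x)) =
      2 ^ g * ∑ a : Fin d → ZMod l, ∏ x ∈ R, fN l (L a x) := by
    rw [Finset.mul_sum]
    refine Finset.sum_congr rfl fun a _ => ?_
    rw [Finset.prod_mul_distrib, Finset.prod_const, hRc]
  have h7 : ((R.powerset.filter fun S => ∀ i, ∑ x ∈ S, w x i = ∑ x ∈ R \ S, w x i).card : ℝ) ≤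
      2 ^ g * (((2 * r).choose r : ℝ) / 4 ^ r) ^ d := by
    have hN0 : (0 : ℝ) < l ^ d := by
      have : (0 : ℝ) < l := by exact_mod_cast hlp.pos
      positivity
    have h8 := h1.trans (le_of_eq h6)
    have h9 : (2 : ℝ) ^ g * ∑ a : Fin d → ZMod l, ∏ x ∈ R, fN l (L a x) ≤
        2 ^ g * (l * (((2 * r).choose r : ℝ) / 4 ^ r)) ^ d :=
      mul_le_mul_of_nonneg_left h5 (by positivity)
    have h10 := h8.trans h9
    rw [mul_pow, mul_comm ((l : ℝ) ^ d), ← mul_assoc] at h10
    exact le_of_mul_le_mul_right h10 hN0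
  refine le_trans ?_ h7
  rw [Nat.card_eq_fintype_card]
  have h8 : Fintype.card {Φ : Set X // (∀ x, c x ∈ Φ ↔ x ∉ Φ) ∧
        ∀ f ∈ U, ∑ x, (if x ∈ Φ then f x else 0) = 0} ≤
      Fintype.card {S : Finset X // S ∈ R.powerset.filter fun S => ∀ i, ∑ x ∈ S, w x i =
        ∑ x ∈ R \ S, w x i} := by
    refine Fintype.card_le_of_injective (fun Φ => ⟨R.filter (fun x => x ∈ Φ.1), ?_⟩) ?_
    · rw [Finset.mem_filter]
      refine ⟨Finset.mem_powerset.2 (Finset.filter_subset _ _), fun i => ?_⟩
      have h9 := Φ.2.2 _ (hwW i)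
      rw [sum_type c hcc R hR _ (hodd _ (hwW i)) Φ.1 Φ.2.1, sub_eq_zero] at h9
      exact h9
    · intro Φ Φ' h
      apply Subtype.ext
      refine type_inj c R hR _ _ Φ.2.1 Φ'.2.1 fun x hx => ?_
      have h9 := congrArg (fun S : {S : Finset X // S ∈ R.powerset.filter fun S =>
        ∀ i, ∑ x ∈ S, w x i = ∑ x ∈ R \ S, w x i} => x ∈ S.1) h
      simpa [hx] using h9
  rw [Fintype.card_coe] at h8
  exact_mod_cast h8

open Classical in
theorem count_mod_odl {X : Type} [Fintype X] (c : X → X) (hcc : ∀ x, c (c x) = x)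
    (hc : ∀ x, c x ≠ x) (g : ℕ) (hg : Fintype.card X = 2 * g)
    (l : ℕ) [Fact l.Prime] (hl : Odd l) (U : Submodule (ZMod l) (X → ZMod l))
    (hodd : ∀ f ∈ U, ∀ x, f (c x) = - f x) (d : ℕ) (hd : Module.finrank (ZMod l) U = d) :
    (Nat.card {Φ : Set X // (∀ x, c x ∈ Φ ↔ x ∉ Φ) ∧
        ∀ f ∈ U, ∑ x, (if x ∈ Φ then f x else 0) = 0} : ℝ) ≤ 2 ^ g * (1 / 2) ^ d := by
  have hlp : l.Prime := Fact.out
  have : NeZero l := ⟨hlp.ne_zero⟩
  have h2l : (2 : ZMod l) ≠ 0 := by
    intro h
    have h1 : ((2 : ℕ) : ZMod l) = 0 := by exact_mod_cast h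
    rw [ZMod.natCast_eq_zero_iff] at h1
    have h2 := (Nat.prime_dvd_prime_iff_eq hlp Nat.prime_two).1 h1
    rw [h2] at hl
    exact absurd hl (by decide)
  obtain ⟨R, hR⟩ := exists_section c hcc hc
  have hRc := card_R c hcc R hR g hg
  have hRW : ∀ f ∈ U, (∀ x ∈ R, f x = 0) → f = 0 := by
    intro f hf h
    funext x
    by_cases hx : x ∈ R
    · exact h x hx
    · have h1 := h (c x) ((hR x).2 hx)
      rw [hodd f hf, neg_eq_zero] at h1
      exact h1
  obtain ⟨w, y, hwW, hyR, hyinj, hdet⟩ := exists_points_mod U R hRW d hd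
  have hdet1 : (Matrix.of fun i j => w (y j) i).det ≠ 0 := hdet 1 (fun f hf => hf)
  set T : Finset X := Finset.univ.image y with hT
  have hTc : T.card = d := by
    rw [hT, Finset.card_image_of_injective _ hyinj, Finset.card_univ, Fintype.card_fin]
  have hTR : T ⊆ R := by
    intro x hx
    rw [hT, Finset.mem_image] at hx
    obtain ⟨j, -, rfl⟩ := hx
    exact hyR j
  have hdg : d ≤ g := by rw [← hTc, ← hRc]; exact Finset.card_le_card hTR
  have h8 : Nat.card {Φ : Set X // (∀ x, c x ∈ Φ ↔ x ∉ Φ) ∧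
        ∀ f ∈ U, ∑ x, (if x ∈ Φ then f x else 0) = 0} ≤ (R \ T).powerset.card := by
    rw [Nat.card_eq_fintype_card, ← Fintype.card_coe]
    refine Fintype.card_le_of_injective (fun Φ => ⟨(R \ T).filter (fun x => x ∈ Φ.1),
      Finset.mem_powerset.2 (Finset.filter_subset _ _)⟩) ?_
    intro Φ Φ' h
    have h9 : ∀ x ∈ R \ T, (x ∈ Φ.1 ↔ x ∈ Φ'.1) := by
      intro x hx
      have := congrArg (fun S : {S : Finset X // S ∈ (R \ T).powerset} => x ∈ S.1) h
      simpa only [Finset.mem_filter, hx, true_and, eq_iff_iff] using this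
    -- the difference of the signs
    set e : X → ZMod l := fun x => (if x ∈ Φ.1 then 1 else -1) - (if x ∈ Φ'.1 then 1 else -1) with he
    have hsum : ∀ (Ψ : {Φ : Set X // (∀ x, c x ∈ Φ ↔ x ∉ Φ) ∧
        ∀ f ∈ U, ∑ x, (if x ∈ Φ then f x else 0) = 0}) (i : Fin d),
        ∑ x ∈ R, (if x ∈ Ψ.1 then (1 : ZMod l) else -1) * w x i = 0 := by
      intro Ψ i
      have h10 := Ψ.2.2 _ (hwW i)
      rw [sum_type c hcc R hR _ (hodd _ (hwW i)) Ψ.1 Ψ.2.1] at h10
      have h11 : ∑ x ∈ R.filter (fun x => x ∈ Ψ.1), w x i -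
          ∑ x ∈ R \ R.filter (fun x => x ∈ Ψ.1), w x i = 0 := h10
      refine Eq.trans ?_ h11
      rw [← Finset.filter_not, Finset.sum_filter, Finset.sum_filter,
        ← Finset.sum_sub_distrib]
      refine Finset.sum_congr rfl fun x _ => ?_
      split_ifs <;> simp
    have h10 : ∀ i : Fin d, ∑ j, w (y j) i * e (y j) = 0 := by
      intro i
      have h11 : ∑ x ∈ R, w x i * e x = 0 := by
        have h12 := hsum Φ i
        have h13 := hsum Φ' i
        have h14 : ∑ x ∈ R, w x i * e x =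
            ∑ x ∈ R, (if x ∈ Φ.1 then (1 : ZMod l) else -1) * w x i -
            ∑ x ∈ R, (if x ∈ Φ'.1 then (1 : ZMod l) else -1) * w x i := by
          rw [← Finset.sum_sub_distrib]
          refine Finset.sum_congr rfl fun x _ => ?_
          simp only [he]
          ring
        rw [h14, h12, h13, sub_zero]
      have h12 : ∑ x ∈ T, w x i * e x = 0 := by
        rw [← h11]
        refine Finset.sum_subset hTR fun x hx hxT => ?_
        have h13 := h9 x (Finset.mem_sdiff.2 ⟨hx, hxT⟩)
        simp only [he, h13, sub_self, mul_zero]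
      rw [← h12, hT, Finset.sum_image (fun j _ j' _ hjj => hyinj hjj)]
    have h11 : (fun j => e (y j)) = 0 := by
      by_contra hne
      exact hdet1 (Matrix.exists_mulVec_eq_zero_iff.1 ⟨_, hne, funext h10⟩)
    have hone : (1 : ZMod l) - -1 ≠ 0 := by
      intro h12
      apply h2l
      linear_combination h12
    have hone' : -(1 : ZMod l) - 1 ≠ 0 := by
      intro h12
      apply h2l
      linear_combination -h12
    apply Subtype.ext
    refine type_inj c R hR _ _ Φ.2.1 Φ'.2.1 fun x hx => ?_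
    by_cases hxT : x ∈ T
    · rw [hT, Finset.mem_image] at hxT
      obtain ⟨j, -, rfl⟩ := hxT
      have h12 : e (y j) = 0 := congrFun h11 j
      simp only [he] at h12
      by_cases h13 : y j ∈ Φ.1
      · by_cases h14 : y j ∈ Φ'.1
        · exact ⟨fun _ => h14, fun _ => h13⟩
        · rw [if_pos h13, if_neg h14] at h12
          exact absurd h12 hone
      · by_cases h14 : y j ∈ Φ'.1
        · rw [if_neg h13, if_pos h14] at h12
          exact absurd h12 hone'
        · exact ⟨fun h => absurd h h13, fun h => absurd h h14⟩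
    · exact h9 x (Finset.mem_sdiff.2 ⟨hx, hxT⟩)
  rw [Finset.card_powerset, Finset.card_sdiff_of_subset hTR, hRc, hTc] at h8
  have h9 : ((2 ^ (g - d) : ℕ) : ℝ) = 2 ^ g * (1 / 2) ^ d := by
    push_cast
    have h10 : (2 : ℝ) ^ g = 2 ^ (g - d) * 2 ^ d := by
      rw [← pow_add]
      congr 1
      omega
    rw [h10, mul_assoc, ← mul_pow]
    norm_num
  rw [← h9]
  exact_mod_cast h8

end Pool.Agent.H52.LP
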