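import Mathlib

/-!
# Binomial coefficients in a residue class (module LP Bin)

PROOF of `sum_choose_modEq_le`.  For `i ≤ L`: `C(L,i) = ∑_{j ≤ min(i, L-i)} w_j`, `w_j = C(L,j) - C(L,j-1) ≥ 0`
for `j ≤ L/2` (`w_0 = 1`), i.e. `C(L, ·) = ∑_{j ≤ L/2} w_j 1_[j, L-j]` (symmetry `Nat.choose_symm` and
telescoping).  An interval with `n` consecutive integers has at most `n / l + 1` elements in a residue class
(`Nat.Ioc_filter_modEq_card`, `Nat.count_modEq_card` or similar).  So the sum over `i ≡ a` is at most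
`∑_j w_j ((L - 2 j + 1) / l + 1) = 2^L / l + C(L, L/2)` as `∑_j w_j (L - 2 j + 1) = ∑_i C(L,i) = 2^L` and
`∑_j w_j = C(L, L/2)`.  (Any other proof is welcome, e.g.: for a unimodal sequence the sum over an arithmetic
progression of difference `l` is at most the total divided by `l` plus the maximum.)

PROOF of `centralBinom_le`.  Induction: `C(2n+2,n+1) = C(2n,n) * 2 (2n+1) / (n+1)`
(`Nat.succ_mul_centralBinom_succ`) and `(2n+1)^2 (3n+4) ≤ (2n+2)^2 (3n+1)`.

PROOF of `choose_half_le`.  `L = 2n`: `centralBinom_le` and `3n+1 ≥ 2n`; `L = 2n+1`: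
`2 C(2n+1,n) = C(2n+2,n+1)` and `3n+4 ≥ 2n+1`.
-/

namespace Pool.Agent.H52.LP

open Finset in
theorem interval_count (T : Finset ℕ) (hT : ∀ p ∈ T, ∀ q ∈ T, ∀ i, p ≤ i → i ≤ q → i ∈ T)
    (l a : ℕ) (hl : 0 < l) : l * (T.filter (fun i => i ≡ a [MOD l])).card ≤ T.card + l := by
  rcases T.eq_empty_or_nonempty with rfl | hne
  · simp
  obtain ⟨p, q, hTe⟩ : ∃ p q : ℕ, p ≤ q ∧ T = Finset.Ico p q := by
    refine ⟨T.min' hne, T.max' hne + 1, (T.min'_le_max' hne).trans (Nat.le_succ _), ?_⟩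
    ext i
    rw [Finset.mem_Ico]
    constructor
    · intro hi
      exact ⟨T.min'_le i hi, Nat.lt_succ_of_le (T.le_max' i hi)⟩
    · rintro ⟨h1, h2⟩
      exact hT _ (T.min'_mem hne) _ (T.max'_mem hne) i h1 (Nat.le_of_lt_succ h2)
  obtain ⟨hpq, rfl⟩ := hTe
  have h := Nat.Ico_filter_modEq_card p q hl a
  have hl' : (0 : ℚ) < l := by exact_mod_cast hl
  have hc1 : ((⌈((q : ℚ) - a) / (l : ℚ)⌉ : ℤ) : ℚ) < ((q : ℚ) - a) / l + 1 := Int.ceil_lt_add_one _
  have hc2 : ((p : ℚ) - a) / l ≤ ((⌈((p : ℚ) - a) / (l : ℚ)⌉ : ℤ) : ℚ) := Int.le_ceil _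
  have hpq' : (p : ℚ) ≤ q := by exact_mod_cast hpq
  have key : ((#{x ∈ Ico p q | x ≡ a [MOD l]} : ℕ) : ℚ) ≤ ((q : ℚ) - p) / l + 1 := by
    have h2 : ((#{x ∈ Ico p q | x ≡ a [MOD l]} : ℕ) : ℚ) =
        ((#{x ∈ Ico p q | x ≡ a [MOD l]} : ℕ) : ℤ) := by push_cast; rfl
    rw [h2, h]
    push_cast
    apply max_le
    · have e : ((q : ℚ) - p) / l = ((q : ℚ) - a) / l - ((p : ℚ) - a) / l := by ring
      rw [e]
      linarith
    · have : 0 ≤ ((q : ℚ) - p) / l := div_nonneg (by linarith) hl'.le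
      linarith
  have h3 : (l : ℚ) * ((#{x ∈ Ico p q | x ≡ a [MOD l]} : ℕ) : ℚ) ≤ ((q : ℚ) - p) + l := by
    calc (l : ℚ) * ((#{x ∈ Ico p q | x ≡ a [MOD l]} : ℕ) : ℚ)
        ≤ l * (((q : ℚ) - p) / l + 1) := by gcongr
      _ = ((q : ℚ) - p) + l := by field_simp
  rw [Nat.card_Ico]
  have h4 : ((q - p : ℕ) : ℚ) = (q : ℚ) - p := by push_cast [Nat.cast_sub hpq]; ring
  rw [← h4] at h3
  exact_mod_cast h3

theorem choose_mono_half (L p i : ℕ) (hpi : p ≤ i) (hi : i ≤ L / 2) :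
    L.choose p ≤ L.choose i := by
  induction i, hpi using Nat.le_induction with
  | base => exact le_rfl
  | succ i _ ih =>
    exact (ih (by omega)).trans (Nat.choose_le_succ_of_lt_half_left (by omega))

theorem choose_unimodal (L p i q : ℕ) (hpi : p ≤ i) (hiq : i ≤ q) (hq : q ≤ L) (s : ℕ)
    (h1 : s < L.choose p) (h2 : s < L.choose q) : s < L.choose i := by
  rcases Nat.lt_or_ge (L / 2) i with h | h
  · refine lt_of_lt_of_le h2 ?_
    rw [← Nat.choose_symm hq, ← Nat.choose_symm (hiq.trans hq)]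
    exact choose_mono_half L (L - q) (L - i) (by omega) (by omega)
  · exact lt_of_lt_of_le h1 (choose_mono_half L p i hpi h)

open Finset in
theorem sum_choose_nat (l L a : ℕ) (hl : 0 < l) :
    l * ∑ i ∈ (Finset.range (L + 1)).filter (fun i => i ≡ a [MOD l]), L.choose i ≤
      2 ^ L + l * L.choose (L / 2) := by
  set N := L.choose (L / 2) with hN
  have layer : ∀ S : Finset ℕ, ∑ i ∈ S, L.choose i =
      ∑ s ∈ Finset.range N, (S.filter (fun i => s < L.choose i)).card := by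
    intro S
    have h1 : ∀ i, L.choose i = ∑ s ∈ Finset.range N, if s < L.choose i then 1 else 0 := by
      intro i
      rw [← Finset.sum_filter, Finset.sum_const, smul_eq_mul, mul_one]
      have h2 : (Finset.range N).filter (fun s => s < L.choose i) =
          Finset.range (L.choose i) := by
        ext s
        simp only [Finset.mem_filter, Finset.mem_range]
        have h3 : L.choose i ≤ N := Nat.choose_le_middle i L
        omega
      rw [h2, Finset.card_range]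
    rw [Finset.sum_congr rfl (fun i _ => h1 i), Finset.sum_comm]
    refine Finset.sum_congr rfl fun s _ => ?_
    rw [Finset.card_filter]
  rw [layer, Finset.mul_sum]
  have h2L : (2 : ℕ) ^ L = ∑ s ∈ Finset.range N,
      ((Finset.range (L + 1)).filter (fun i => s < L.choose i)).card := by
    rw [← layer, Nat.sum_range_choose]
  rw [h2L]
  have hlN : l * N = ∑ _s ∈ Finset.range N, l := by
    rw [Finset.sum_const, Finset.card_range, smul_eq_mul, mul_comm]
  rw [hlN, ← Finset.sum_add_distrib]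
  refine Finset.sum_le_sum fun s _ => ?_
  rw [Finset.filter_comm]
  refine interval_count _ ?_ l a hl
  intro p hp q hq i hpi hiq
  rw [Finset.mem_filter, Finset.mem_range] at hp hq ⊢
  exact ⟨by omega, choose_unimodal L p i q hpi hiq (by omega) s hp.2 hq.2⟩

theorem sum_choose_modEq_le (l L a : ℕ) (hl : 0 < l) :
    (l : ℝ) * ∑ i ∈ (Finset.range (L + 1)).filter (fun i => i ≡ a [MOD l]), (L.choose i : ℝ) ≤
      2 ^ L + l * (L.choose (L / 2) : ℝ) := by
  exact_mod_cast sum_choose_nat l L a hl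

theorem central_sq (r : ℕ) :
    ((2 * r).choose r : ℝ) ^ 2 * (3 * r + 1) ≤ (4 ^ r) ^ 2 := by
  induction r with
  | zero => simp
  | succ n ih =>
    have h := Nat.succ_mul_centralBinom_succ n
    unfold Nat.centralBinom at h
    have h' : ((n : ℝ) + 1) * ((2 * (n + 1)).choose (n + 1) : ℝ) =
        2 * (2 * n + 1) * ((2 * n).choose n : ℝ) := by exact_mod_cast h
    set c := ((2 * n).choose n : ℝ) with hc
    set c' := ((2 * (n + 1)).choose (n + 1) : ℝ) with hc'
    have hn : (0 : ℝ) ≤ n := Nat.cast_nonneg n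
    have h1 : (0 : ℝ) < ((n : ℝ) + 1) ^ 2 * (3 * n + 1) := by positivity
    have h2 : (((n : ℝ) + 1) ^ 2 * (3 * n + 1)) * (c' ^ 2 * (3 * ((n + 1 : ℕ) : ℝ) + 1)) ≤
        (((n : ℝ) + 1) ^ 2 * (3 * n + 1)) * (4 ^ (n + 1)) ^ 2 := by
      have h3 : (((n : ℝ) + 1) ^ 2 * (3 * n + 1)) * (c' ^ 2 * (3 * ((n + 1 : ℕ) : ℝ) + 1)) =
          4 * (2 * n + 1) ^ 2 * (3 * n + 4) * (c ^ 2 * (3 * n + 1)) := by
        push_cast
        have h4 : (((n : ℝ) + 1) * c') ^ 2 = (2 * (2 * n + 1) * c) ^ 2 := by rw [h']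
        linear_combination (3 * (n : ℝ) + 1) * (3 * n + 4) * h4
      rw [h3]
      have h5 : 4 * (2 * (n : ℝ) + 1) ^ 2 * (3 * n + 4) ≤
          16 * (((n : ℝ) + 1) ^ 2 * (3 * n + 1)) := by nlinarith
      calc 4 * (2 * (n : ℝ) + 1) ^ 2 * (3 * n + 4) * (c ^ 2 * (3 * n + 1))
          ≤ 16 * (((n : ℝ) + 1) ^ 2 * (3 * n + 1)) * (4 ^ n) ^ 2 := by gcongr
        _ = (((n : ℝ) + 1) ^ 2 * (3 * n + 1)) * (4 ^ (n + 1)) ^ 2 := by
          rw [pow_succ]; ring
    exact le_of_mul_le_mul_left h2 h1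

theorem centralBinom_le (r : ℕ) :
    ((2 * r).choose r : ℝ) / 4 ^ r ≤ 1 / Real.sqrt (3 * r + 1) := by
  have hs : 0 < Real.sqrt (3 * r + 1) := Real.sqrt_pos.2 (by positivity)
  rw [div_le_div_iff₀ (by positivity) hs, one_mul]
  have h := central_sq r
  have h1 : (((2 * r).choose r : ℝ) * Real.sqrt (3 * r + 1)) ^ 2 ≤ (4 ^ r) ^ 2 := by
    rw [mul_pow, Real.sq_sqrt (by positivity)]
    exact h
  exact abs_le_of_sq_le_sq' h1 (by positivity) |>.2

theorem choose_half_le (L : ℕ) (hL : 1 ≤ L) :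
    (L.choose (L / 2) : ℝ) ≤ 2 ^ L * (1 / Real.sqrt L) := by
  rcases Nat.even_or_odd' L with ⟨n, rfl | rfl⟩
  · have h1 : 2 * n / 2 = n := by omega
    rw [h1]
    have hn : 1 ≤ n := by omega
    have h := centralBinom_le n
    rw [div_le_iff₀ (by positivity)] at h
    have h4 : (2 : ℝ) ^ (2 * n) = 4 ^ n := by rw [pow_mul]; norm_num
    rw [h4]
    refine (h.trans (le_of_eq (mul_comm _ _))).trans ?_
    have hs : 0 < Real.sqrt ((2 * n : ℕ) : ℝ) := Real.sqrt_pos.2 (by positivity)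
    gcongr
    push_cast
    have : (0 : ℝ) ≤ n := Nat.cast_nonneg n
    linarith
  · have h1 : (2 * n + 1) / 2 = n := by omega
    rw [h1]
    have h := centralBinom_le (n + 1)
    rw [div_le_iff₀ (by positivity)] at h
    have h2 : (2 * (n + 1)).choose (n + 1) = 2 * (2 * n + 1).choose n := by
      have h3 : 2 * (n + 1) = (2 * n + 1) + 1 := by ring
      rw [h3, Nat.choose_succ_succ, Nat.choose_symm_half]
      ring
    rw [h2] at h
    push_cast at h
    have h5 : (2 : ℝ) ^ (2 * n + 1) * (1 / Real.sqrt (3 * ((n : ℝ) + 1) + 1)) * 2 =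
        1 / Real.sqrt (3 * ((n : ℝ) + 1) + 1) * 4 ^ (n + 1) := by
      have h6 : (4 : ℝ) ^ (n + 1) = 2 ^ (2 * n + 1) * 2 := by
        rw [← pow_succ, show 2 * n + 1 + 1 = 2 * (n + 1) by ring, pow_mul]
        norm_num
      rw [h6]; ring
    rw [← h5] at h
    have h6 : ((2 * n + 1).choose n : ℝ) ≤
        2 ^ (2 * n + 1) * (1 / Real.sqrt (3 * ((n : ℝ) + 1) + 1)) := by linarith
    refine h6.trans ?_
    have hs : 0 < Real.sqrt ((2 * n + 1 : ℕ) : ℝ) := Real.sqrt_pos.2 (by positivity)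
    gcongr
    push_cast
    have : (0 : ℝ) ≤ n := Nat.cast_nonneg n
    linarith

end Pool.Agent.H52.LP
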