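import Mathlib
import Pool.Agent.H52.LP.Bin
import Pool.Agent.H52.MF.Count

/-!
# Functions invariant under a normal subgroup: the determinant argument

The number of the types orthogonal modulo `l` to the translates of a nonzero odd function that is
constant on the orbits of the normal closure of `P`.
-/

namespace Pool.Agent.H52.LP

open Pool.Agent.H52.MF

/-- The number of subsets with size in a residue class. -/
theorem card_powerset_modEq_le {X : Type} [DecidableEq X] (O : Finset X) (l : ℕ) [Fact l.Prime]
    (hodd : Odd l) (t : ZMod l) :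
    (l : ℝ) * ((O.powerset.filter fun T => (2 * (T.card : ZMod l) - (O.card : ZMod l)) = t).card : ℝ) ≤
      2 ^ O.card + l * (O.card.choose (O.card / 2) : ℝ) := by
  have hl : l.Prime := Fact.out
  have h2 : (2 : ZMod l) ≠ 0 := by
    intro h
    have h3 : ((2 : ℕ) : ZMod l) = 0 := by exact_mod_cast h
    rw [ZMod.natCast_eq_zero_iff] at h3
    have h4 := Nat.le_of_dvd (by norm_num) h3
    have h5 := hl.two_le
    have h6 : l = 2 := by omega
    rw [h6] at hodd
    exact absurd hodd (by decide)
  obtain ⟨a, ha⟩ := ZMod.natCast_zmod_surjective ((2 : ZMod l)⁻¹ * (t + (O.card : ZMod l)))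
  have h3 : ∀ T : Finset X, ((2 * (T.card : ZMod l) - (O.card : ZMod l)) = t) ↔ T.card ≡ a [MOD l] := by
    intro T
    rw [← ZMod.natCast_eq_natCast_iff, ha]
    constructor
    · intro h
      rw [← h]
      field_simp
      ring
    · intro h
      rw [h]
      field_simp
      ring
  have h4 : ((O.powerset.filter fun T => (2 * (T.card : ZMod l) - (O.card : ZMod l)) = t).card : ℝ) =
      ∑ i ∈ (Finset.range (O.card + 1)).filter (fun i => i ≡ a [MOD l]), (O.card.choose i : ℝ) := by
    have h5 : (O.powerset.filter fun T => (2 * (T.card : ZMod l) - (O.card : ZMod l)) = t).card =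
        ∑ i ∈ (Finset.range (O.card + 1)).filter (fun i => i ≡ a [MOD l]), O.card.choose i := by
      rw [Finset.card_eq_sum_card_fiberwise (f := Finset.card)
        (t := (Finset.range (O.card + 1)).filter (fun i => i ≡ a [MOD l]))]
      · refine Finset.sum_congr rfl fun i hi => ?_
        rw [Finset.mem_filter] at hi
        rw [← Finset.card_powersetCard]
        congr 1
        ext T
        simp only [Finset.mem_filter, Finset.mem_powerset, Finset.mem_powersetCard, h3]
        constructor
        · rintro ⟨⟨h, -⟩, h'⟩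
          exact ⟨h, h'⟩
        · rintro ⟨h, h'⟩
          refine ⟨⟨h, ?_⟩, h'⟩
          rw [h']
          exact hi.2
      · intro T hT
        have hT' : T ∈ O.powerset.filter fun T => (2 * (T.card : ZMod l) - (O.card : ZMod l)) = t := hT
        rw [Finset.mem_filter, Finset.mem_powerset, h3] at hT'
        refine Finset.mem_coe.2 (Finset.mem_filter.2 ⟨Finset.mem_range.2 ?_, hT'.2⟩)
        have := Finset.card_le_card hT'.1
        omega
    rw [h5]
    push_cast
    rfl
  rw [h4]
  exact sum_choose_modEq_le l O.card a hl.pos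

/-- The number of subsets `T` of `O` for which `(2 |T| - |O|) + B` is singular modulo `l`. -/
theorem card_det_zero_le {X : Type} [DecidableEq X] (O : Finset X) (l : ℕ) [Fact l.Prime]
    (hodd : Odd l) {ι : Type} [Fintype ι] [DecidableEq ι] (B : Matrix ι ι (ZMod l)) :
    (l : ℝ) * ((O.powerset.filter fun T =>
      (Matrix.scalar ι (2 * (T.card : ZMod l) - (O.card : ZMod l)) + B).det = 0).card : ℝ) ≤
      Fintype.card ι * (2 ^ O.card + l * (O.card.choose (O.card / 2) : ℝ)) := by
  classical
  set p := (-B).charpoly with hp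
  have hmonic : p.Monic := Matrix.charpoly_monic _
  have hdeg : p.natDegree = Fintype.card ι := Matrix.charpoly_natDegree_eq_dim _
  have h1 : (O.powerset.filter fun T =>
      (Matrix.scalar ι (2 * (T.card : ZMod l) - (O.card : ZMod l)) + B).det = 0) ⊆
      p.roots.toFinset.biUnion fun t =>
        O.powerset.filter fun T => (2 * (T.card : ZMod l) - (O.card : ZMod l)) = t := by
    intro T hT
    rw [Finset.mem_filter] at hT
    rw [Finset.mem_biUnion]
    refine ⟨2 * (T.card : ZMod l) - (O.card : ZMod l), ?_, ?_⟩
    · rw [Multiset.mem_toFinset, Polynomial.mem_roots hmonic.ne_zero, Polynomial.IsRoot.def, hp,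
        Matrix.eval_charpoly, sub_neg_eq_add]
      exact hT.2
    · rw [Finset.mem_filter]
      exact ⟨hT.1, rfl⟩
  have h2 : ((O.powerset.filter fun T =>
      (Matrix.scalar ι (2 * (T.card : ZMod l) - (O.card : ZMod l)) + B).det = 0).card : ℝ) ≤
      ∑ t ∈ p.roots.toFinset, ((O.powerset.filter fun T =>
        (2 * (T.card : ZMod l) - (O.card : ZMod l)) = t).card : ℝ) := by
    exact_mod_cast (Finset.card_le_card h1).trans Finset.card_biUnion_le
  have h3 : (p.roots.toFinset.card : ℝ) ≤ Fintype.card ι := by
    rw [← hdeg]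
    exact_mod_cast (Multiset.toFinset_card_le _).trans (Polynomial.card_roots' p)
  calc _ ≤ (l : ℝ) * ∑ t ∈ p.roots.toFinset, ((O.powerset.filter fun T =>
        (2 * (T.card : ZMod l) - (O.card : ZMod l)) = t).card : ℝ) :=
        mul_le_mul_of_nonneg_left h2 (Nat.cast_nonneg _)
    _ = ∑ t ∈ p.roots.toFinset, (l : ℝ) * ((O.powerset.filter fun T =>
        (2 * (T.card : ZMod l) - (O.card : ZMod l)) = t).card : ℝ) := by rw [Finset.mul_sum]
    _ ≤ ∑ _t ∈ p.roots.toFinset, (2 ^ O.card + l * (O.card.choose (O.card / 2) : ℝ)) :=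
        Finset.sum_le_sum fun t _ => card_powerset_modEq_le O l hodd t
    _ = p.roots.toFinset.card * (2 ^ O.card + l * (O.card.choose (O.card / 2) : ℝ)) := by
        rw [Finset.sum_const, nsmul_eq_mul]
    _ ≤ _ := mul_le_mul_of_nonneg_right h3 (by positivity)

end Pool.Agent.H52.LP
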