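import Mathlib
import Pool.Agent.H52.LP.Det

/-!
# The types orthogonal to an invariant function

`N` is a group of permutations normalized by the transitive group `𝒢`.  The number of the types orthogonal
modulo `l` to all translates of a nonzero odd `N`-invariant function.
-/

namespace Pool.Agent.H52.LP

open Pool.Agent.H52.MF

/-- The orbits of `N`. -/
def orbSetoid {X : Type} (N : Subgroup (Equiv.Perm X)) : Setoid X where
  r x y := ∃ ν ∈ N, ν x = y
  iseqv :=
    { refl := fun x => ⟨1, N.one_mem, rfl⟩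
      symm := by
        rintro x y ⟨ν, hν, rfl⟩
        exact ⟨ν⁻¹, N.inv_mem hν, by simp⟩
      trans := by
        rintro x y z ⟨ν, hν, rfl⟩ ⟨μ, hμ, rfl⟩
        exact ⟨μ * ν, N.mul_mem hμ hν, rfl⟩ }

lemma orbSetoid_iff {X : Type} (N : Subgroup (Equiv.Perm X)) (x y : X) :
    (Quotient.mk (orbSetoid N) x = Quotient.mk (orbSetoid N) y) ↔ ∃ ν ∈ N, ν x = y :=
  Quotient.eq (r := orbSetoid N)

/-- Sum over all points of an odd function times signs. -/
lemma sum_sign {X : Type} [Fintype X] [DecidableEq X] (c : X → X) (hcc : ∀ x, c (c x) = x)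
    (R : Finset X) (hR : ∀ x, c x ∈ R ↔ x ∉ R) {A : Type*} [CommRing A] (u : X → A)
    (hu : ∀ x, u (c x) = - u x) (T : Finset X) (hT : T ⊆ R) :
    ∑ x, (if x ∈ R then (if x ∈ T then (1 : A) else -1) else (if c x ∈ T then -1 else 1)) * u x =
      2 * (∑ x ∈ T, u x - ∑ x ∈ R \ T, u x) := by
  rw [sum_univ_eq c hcc R hR]
  have h1 : ∑ x ∈ R, (if x ∈ R then (if x ∈ T then (1 : A) else -1) else
      (if c x ∈ T then -1 else 1)) * u x = ∑ x ∈ T, u x - ∑ x ∈ R \ T, u x := by
    rw [← Finset.sum_sdiff hT, add_comm, sub_eq_add_neg, ← Finset.sum_neg_distrib]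
    congr 1
    · refine Finset.sum_congr rfl fun x hx => ?_
      rw [if_pos (hT hx), if_pos hx, one_mul]
    · refine Finset.sum_congr rfl fun x hx => ?_
      rw [Finset.mem_sdiff] at hx
      rw [if_pos hx.1, if_neg hx.2]
      ring
  have h2 : ∑ x ∈ R, (if c x ∈ R then (if c x ∈ T then (1 : A) else -1) else
      (if c (c x) ∈ T then -1 else 1)) * u (c x) = ∑ x ∈ T, u x - ∑ x ∈ R \ T, u x := by
    rw [← h1]
    refine Finset.sum_congr rfl fun x hx => ?_
    have h3 : c x ∉ R := fun h => (hR x).1 h hx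
    rw [if_neg h3, if_pos hx, hcc, hu]
    split_ifs <;> ring
  rw [h1, h2]
  ring

lemma final_estimate (g l m q n L Q : ℕ) (hl0 : (0 : ℝ) < l) (hLg : L ≤ g) (hL1 : 1 ≤ L)
    (hnm : n ≤ m) (hq : 1 ≤ q) (hqL : q ≤ L)
    (hQ : (l : ℝ) * Q ≤ 2 ^ (g - L) * (n * (2 ^ L + l * (L.choose (L / 2) : ℝ)))) :
    (Q : ℝ) ≤ 2 ^ g * (m / l + m * (1 / Real.sqrt q)) := by
  have h3 := choose_half_le L hL1
  have h5 : (l : ℝ) * Q ≤ l * (2 ^ g * (n / l + n * (1 / Real.sqrt L))) := by
    refine hQ.trans ?_
    have h6 : (2 : ℝ) ^ g = 2 ^ (g - L) * 2 ^ L := by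
      rw [← pow_add]
      congr 1
      omega
    have h7 : (l : ℝ) * (2 ^ g * (n / l + n * (1 / Real.sqrt L))) =
        2 ^ (g - L) * (n * (2 ^ L + l * (2 ^ L * (1 / Real.sqrt L)))) := by
      rw [h6]
      have h8 : (l : ℝ) * (n / l) = n := mul_div_cancel₀ _ hl0.ne'
      linear_combination (2 ^ (g - L) * 2 ^ L : ℝ) * h8
    rw [h7]
    have h8 : (l : ℝ) * (L.choose (L / 2) : ℝ) ≤ l * (2 ^ L * (1 / Real.sqrt L)) :=
      mul_le_mul_of_nonneg_left h3 hl0.le
    have h9 : (n : ℝ) * (2 ^ L + l * (L.choose (L / 2) : ℝ)) ≤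
        n * (2 ^ L + l * (2 ^ L * (1 / Real.sqrt L))) :=
      mul_le_mul_of_nonneg_left (by linarith) (Nat.cast_nonneg _)
    exact mul_le_mul_of_nonneg_left h9 (by positivity)
  have h4 : (Q : ℝ) ≤ 2 ^ g * (n / l + n * (1 / Real.sqrt L)) := le_of_mul_le_mul_left h5 hl0
  refine h4.trans ?_
  have hm0' : (n : ℝ) ≤ m := by exact_mod_cast hnm
  have hqO : Real.sqrt q ≤ Real.sqrt L := Real.sqrt_le_sqrt (by exact_mod_cast hqL)
  have hq0 : 0 < Real.sqrt q := Real.sqrt_pos.2 (by exact_mod_cast hq)
  have h10 : (n : ℝ) / l ≤ m / l := div_le_div_of_nonneg_right hm0' hl0.le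
  have h11 : (1 : ℝ) / Real.sqrt L ≤ 1 / Real.sqrt q := one_div_le_one_div_of_le hq0 hqO
  have h12 : (n : ℝ) * (1 / Real.sqrt L) ≤ m * (1 / Real.sqrt q) :=
    mul_le_mul hm0' h11 (by positivity) (Nat.cast_nonneg _)
  exact mul_le_mul_of_nonneg_left (by linarith) (by positivity)

open Classical in
theorem inv_count {X : Type} [Fintype X] (c : X → X) (hcc : ∀ x, c (c x) = x)
    (𝒢 : Subgroup (Equiv.Perm X)) (hcomm : ∀ π ∈ 𝒢, ∀ x, π (c x) = c (π x))
    (htr : ∀ x y, ∃ π ∈ 𝒢, π x = y) (g : ℕ) (hg1 : 1 ≤ g) (hg : Fintype.card X = 2 * g)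
    (l : ℕ) [Fact l.Prime] (hodd : Odd l) (N : Subgroup (Equiv.Perm X)) (hN𝒢 : N ≤ 𝒢)
    (hN : ∀ π ∈ 𝒢, ∀ ν ∈ N, π * ν * π⁻¹ ∈ N) (q m : ℕ) (hq : 1 ≤ q)
    (hNq : ∀ x, q ≤ Nat.card {y : X // ∃ π ∈ N, π x = y}) (hgm : g = m * q) :
    (Nat.card {Φ : Set X // (∀ x, c x ∈ Φ ↔ x ∉ Φ) ∧ ∃ b : X → ZMod l, b ≠ 0 ∧
        (∀ x, b (c x) = - b x) ∧ (∀ ν ∈ N, ∀ x, b (ν x) = b x) ∧
        ∀ π ∈ 𝒢, ∑ x, (if x ∈ Φ then b (π x) else 0) = 0} : ℝ) ≤
      2 ^ g * (m / l + m * (1 / Real.sqrt q)) := by
  have hlp : l.Prime := Fact.out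
  have hl0 : (0 : ℝ) < l := by exact_mod_cast hlp.pos
  have h2 : (2 : ZMod l) ≠ 0 := by
    intro h
    have h3 : ((2 : ℕ) : ZMod l) = 0 := by exact_mod_cast h
    rw [ZMod.natCast_eq_zero_iff] at h3
    have h4 := Nat.le_of_dvd (by norm_num) h3
    have h5 := hlp.two_le
    have h6 : l = 2 := by omega
    rw [h6] at hodd
    exact absurd hodd (by decide)
  let s : Setoid X := orbSetoid N
  have hmk : ∀ x y : X, (Quotient.mk s x = Quotient.mk s y) ↔ ∃ ν ∈ N, ν x = y := orbSetoid_iff N
  have hact : ∀ π ∈ 𝒢, ∀ x y : X, Quotient.mk s x = Quotient.mk s y →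
      Quotient.mk s (π x) = Quotient.mk s (π y) := by
    intro π hπ x y h
    rw [hmk] at h ⊢
    obtain ⟨ν, hν, rfl⟩ := h
    exact ⟨π * ν * π⁻¹, hN π hπ ν hν, by simp [Equiv.Perm.mul_apply]⟩
  have hactc : ∀ x y : X, Quotient.mk s x = Quotient.mk s y →
      Quotient.mk s (c x) = Quotient.mk s (c y) := by
    intro x y h
    rw [hmk] at h ⊢
    obtain ⟨ν, hν, rfl⟩ := h
    exact ⟨ν, hν, hcomm ν (hN𝒢 hν) x⟩
  by_cases hfix : ∃ x, Quotient.mk s (c x) = Quotient.mk s x
  · -- no such function
    obtain ⟨x, hx⟩ := hfix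
    have : IsEmpty {Φ : Set X // (∀ x, c x ∈ Φ ↔ x ∉ Φ) ∧ ∃ b : X → ZMod l, b ≠ 0 ∧
        (∀ x, b (c x) = - b x) ∧ (∀ ν ∈ N, ∀ x, b (ν x) = b x) ∧
        ∀ π ∈ 𝒢, ∑ x, (if x ∈ Φ then b (π x) else 0) = 0} := by
      constructor
      rintro ⟨Φ, -, b, hb0, hbo, hbN, -⟩
      apply hb0
      funext y
      obtain ⟨π, hπ, rfl⟩ := htr x y
      have h3 := hact π hπ _ _ hx
      rw [hcomm π hπ, hmk] at h3
      obtain ⟨ν, hν, h4⟩ := h3
      have h5 := hbN ν hν (c (π x))
      rw [h4, hbo] at h5
      have h6 : (2 : ZMod l) * b (π x) = 0 := by linear_combination h5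
      rcases mul_eq_zero.1 h6 with h7 | h7
      · exact absurd h7 h2
      · exact h7
    rw [Nat.card_of_isEmpty, Nat.cast_zero]
    positivity
  push Not at hfix
  -- the involution on the orbits
  let cY : Quotient s → Quotient s := Quotient.map' c (fun x y h => by
    have := hactc x y (Quotient.sound h)
    exact Quotient.exact this)
  have hcY : ∀ x : X, cY (Quotient.mk s x) = Quotient.mk s (c x) := fun x => rfl
  have hcYcc : ∀ y, cY (cY y) = y := by
    intro y
    induction y using Quotient.inductionOn with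
    | h x => rw [hcY, hcY, hcc]
  have hcYne : ∀ y, cY y ≠ y := by
    intro y
    induction y using Quotient.inductionOn with
    | h x => rw [hcY]; exact hfix x
  obtain ⟨RY, hRY⟩ := exists_section cY hcYcc hcYne
  -- the action on the orbits
  let aY : 𝒢 → Quotient s → Quotient s := fun π => Quotient.map' (fun x => (π : Equiv.Perm X) x)
    (fun x y h => by
      have := hact π π.2 x y (Quotient.sound h)
      exact Quotient.exact this)
  have haY : ∀ (π : 𝒢) (x : X), aY π (Quotient.mk s x) = Quotient.mk s ((π : Equiv.Perm X) x) :=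
    fun π x => rfl
  have haYinj : ∀ (π : 𝒢) (y y' : Quotient s), aY π y = aY π y' → y = y' := by
    intro π y y' h
    induction y using Quotient.inductionOn with
    | h x =>
      induction y' using Quotient.inductionOn with
      | h x' =>
        rw [haY, haY] at h
        have h3 := hact _ (𝒢.inv_mem π.2) _ _ h
        simpa using h3
  have haYc : ∀ (π : 𝒢) (y : Quotient s), aY π (cY y) = cY (aY π y) := by
    intro π y
    induction y using Quotient.inductionOn with
    | h x => rw [hcY, haY, haY, hcY, hcomm _ π.2]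
  set R : Finset X := Finset.univ.filter fun x => Quotient.mk s x ∈ RY with hRdef
  have hRm : ∀ x, x ∈ R ↔ Quotient.mk s x ∈ RY := by intro x; simp [hRdef]
  have hR : ∀ x, c x ∈ R ↔ x ∉ R := by
    intro x
    rw [hRm, hRm, ← hcY, hRY]
  have hRc : R.card = g := card_R c hcc R hR g hg
  -- the fibres
  set F : Quotient s → Finset X := fun y => Finset.univ.filter fun x => Quotient.mk s x = y with hF
  have hFm : ∀ x y, x ∈ F y ↔ Quotient.mk s x = y := by intro x y; simp [hF]
  obtain ⟨x₁, hx₁⟩ : R.Nonempty := Finset.card_pos.1 (by omega)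
  set y₁ : Quotient s := Quotient.mk s x₁ with hy₁
  have hy₁R : y₁ ∈ RY := (hRm x₁).1 hx₁
  set O : Finset X := F y₁ with hO
  have hFcard : ∀ y, (F y).card = O.card := by
    intro y
    induction y using Quotient.inductionOn with
    | h x =>
      obtain ⟨π, hπ, hπx⟩ := htr x x₁
      refine Finset.card_bij (fun z _ => π z) ?_ ?_ ?_
      · intro z hz
        rw [hFm] at hz
        rw [hO, hFm, hy₁, ← hπx]
        exact hact π hπ _ _ hz
      · intro z _ z' _ h
        exact π.injective h
      · intro z hz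
        rw [hO, hFm, hy₁, ← hπx] at hz
        refine ⟨π⁻¹ z, ?_, by simp⟩
        rw [hFm]
        have h3 := hact π⁻¹ (𝒢.inv_mem hπ) _ _ hz
        simpa using h3
  have hgO : g = RY.card * O.card := by
    have h3 : R.card = ∑ y ∈ RY, (F y).card := by
      have h4 : R = RY.biUnion F := by
        ext x
        rw [hRm, Finset.mem_biUnion]
        constructor
        · intro h
          exact ⟨_, h, (hFm _ _).2 rfl⟩
        · rintro ⟨y, hy, hxy⟩
          rw [(hFm _ _).1 hxy]
          exact hy
      rw [h4, Finset.card_biUnion]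
      intro y _ y' _ hne
      simp only [Function.onFun]
      rw [Finset.disjoint_left]
      intro x hx hx'
      rw [hFm] at hx hx'
      exact hne (hx.symm.trans hx')
    rw [← hRc, h3, Finset.sum_congr rfl fun y _ => hFcard y, Finset.sum_const, smul_eq_mul]
  have hOq : q ≤ O.card := by
    refine (hNq x₁).trans (le_of_eq ?_)
    rw [Nat.card_eq_fintype_card, Fintype.card_subtype]
    congr 1
    ext y
    rw [hO, hFm, hy₁]
    simp only [Finset.mem_filter, Finset.mem_univ, true_and]
    rw [eq_comm, hmk]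
  have hm0 : RY.card ≤ m := by
    have h3 : RY.card * q ≤ m * q := by
      rw [← hgm, hgO]
      exact Nat.mul_le_mul_left _ hOq
    exact Nat.le_of_mul_le_mul_right h3 (by omega)
  have hOR : O ⊆ R := by
    intro x hx
    rw [hO, hFm] at hx
    rw [hRm, hx]
    exact hy₁R
  -- transporters
  have hh : ∀ y : Quotient s, ∃ π : 𝒢, aY π y = y₁ := by
    intro y
    induction y using Quotient.inductionOn with
    | h x =>
      obtain ⟨π, hπ, hπx⟩ := htr x x₁
      exact ⟨⟨π, hπ⟩, by rw [haY, hy₁]; simp only [hπx]⟩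
  choose h hh using hh
  -- the signs
  set sg : Finset X → X → ZMod l := fun T x =>
    if x ∈ R then (if x ∈ T then (1 : ZMod l) else -1) else (if c x ∈ T then -1 else 1) with hsg
  have hsgc : ∀ T x, sg T (c x) = - sg T x := by
    intro T x
    simp only [hsg, hcc]
    by_cases hx : x ∈ R
    · have h3 : c x ∉ R := fun h => (hR x).1 h hx
      rw [if_neg h3, if_pos hx]
      split_ifs <;> simp
    · have h3 : c x ∈ R := (hR x).2 hx
      rw [if_pos h3, if_neg hx]
      split_ifs <;> simp
  set z : Finset X → Quotient s → ZMod l := fun T y => ∑ x ∈ F y, sg T x with hz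
  have hzc : ∀ T y, z T (cY y) = - z T y := by
    intro T y
    simp only [hz]
    rw [← Finset.sum_neg_distrib]
    refine Finset.sum_bij' (fun x _ => c x) (fun x _ => c x) ?_ ?_ ?_ ?_ ?_
    · intro x hx
      rw [hFm] at hx ⊢
      rw [← hcY, hx, hcYcc]
    · intro x hx
      rw [hFm] at hx ⊢
      rw [← hcY, hx]
    · intro x _; exact hcc x
    · intro x _; exact hcc x
    · intro x _; rw [hsgc, neg_neg]
  -- the matrices
  set B : Finset X → Matrix RY RY (ZMod l) := fun T => Matrix.of fun y y' =>
    if y = y' then 0 else z T (aY (h y) y') with hB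
  -- the set of pairs
  set Q : Finset (Σ _ : Finset X, Finset X) := (R \ O).powerset.sigma fun T =>
    O.powerset.filter fun T' =>
      (Matrix.scalar RY (2 * (T'.card : ZMod l) - (O.card : ZMod l)) + B T).det = 0 with hQ
  have hQcard : (l : ℝ) * Q.card ≤ 2 ^ (g - O.card) * (RY.card * (2 ^ O.card +
      l * (O.card.choose (O.card / 2) : ℝ))) := by
    rw [hQ, Finset.card_sigma]
    push_cast
    rw [Finset.mul_sum]
    calc _ ≤ ∑ _T ∈ (R \ O).powerset, ((RY.card : ℝ) * (2 ^ O.card +
          l * (O.card.choose (O.card / 2) : ℝ))) := by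
          refine Finset.sum_le_sum fun T _ => ?_
          have := card_det_zero_le O l hodd (B T)
          rwa [Fintype.card_coe] at this
      _ = _ := by
          rw [Finset.sum_const, Finset.card_powerset, Finset.card_sdiff_of_subset hOR, hRc,
            nsmul_eq_mul]
          push_cast
          rfl
  have hcard : Nat.card {Φ : Set X // (∀ x, c x ∈ Φ ↔ x ∉ Φ) ∧ ∃ b : X → ZMod l, b ≠ 0 ∧
        (∀ x, b (c x) = - b x) ∧ (∀ ν ∈ N, ∀ x, b (ν x) = b x) ∧
        ∀ π ∈ 𝒢, ∑ x, (if x ∈ Φ then b (π x) else 0) = 0} ≤ Q.card := by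
    rw [Nat.card_eq_fintype_card, ← Fintype.card_coe]
    refine Fintype.card_le_of_injective (fun Φ => ⟨⟨(R \ O).filter (fun x => x ∈ Φ.1),
      O.filter (fun x => x ∈ Φ.1)⟩, ?_⟩) ?_
    · obtain ⟨Φ, hΦ, b, hb0, hbo, hbN, hperp⟩ := Φ
      simp only
      rw [hQ, Finset.mem_sigma, Finset.mem_filter, Finset.mem_powerset, Finset.mem_powerset]
      refine ⟨Finset.filter_subset _ _, Finset.filter_subset _ _, ?_⟩
      set T : Finset X := R.filter (fun x => x ∈ Φ) with hT
      set T' : Finset X := (R \ O).filter (fun x => x ∈ Φ) with hT'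
      -- the function on the orbits
      let bY : Quotient s → ZMod l := Quotient.lift b (fun x y hxy => by
        obtain ⟨ν, hν, h3⟩ := hxy
        rw [← h3, hbN ν hν])
      have hbY : ∀ x, bY (Quotient.mk s x) = b x := fun x => rfl
      have hbYc : ∀ y, bY (cY y) = - bY y := by
        intro y
        induction y using Quotient.inductionOn with
        | h x => rw [hcY, hbY, hbY, hbo]
      -- orthogonality
      have h3 : ∀ π ∈ 𝒢, ∑ x, sg T x * b (π x) = 0 := by
        intro π hπ
        have h4 := sum_sign c hcc R hR (fun x => b (π x))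
          (fun x => by simp only [hcomm π hπ, hbo]) T (Finset.filter_subset _ _)
        have h5 := sum_type c hcc R hR (fun x => b (π x))
          (fun x => by simp only [hcomm π hπ, hbo]) Φ hΦ
        rw [hperp π hπ] at h5
        rw [← h5, mul_zero] at h4
        exact h4
      have h4 : ∀ π : 𝒢, ∑ y : Quotient s, z T (aY π y) * bY y = 0 := by
        intro π
        have h5 := h3 _ (𝒢.inv_mem π.2)
        rw [← Equiv.sum_comp (π : Equiv.Perm X)] at h5
        rw [← h5, ← Finset.sum_fiberwise_of_maps_to (s := Finset.univ) (t := Finset.univ)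
          (g := fun x => Quotient.mk s x) (fun _ _ => Finset.mem_univ _)]
        refine Finset.sum_congr rfl fun y _ => ?_
        have h6 : ∑ x ∈ F (aY π y), sg T x = ∑ x ∈ F y, sg T ((π : Equiv.Perm X) x) := by
          symm
          refine Finset.sum_bij (fun x _ => (π : Equiv.Perm X) x) ?_ ?_ ?_ ?_
          · intro x hx
            rw [hFm] at hx ⊢
            rw [← haY, hx]
          · intro x _ x' _ hxx
            exact (π : Equiv.Perm X).injective hxx
          · intro x hx
            rw [hFm] at hx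
            refine ⟨(π : Equiv.Perm X)⁻¹ x, ?_, by simp⟩
            rw [hFm]
            apply haYinj π
            rw [haY, ← hx]
            simp
          · intro x _; rfl
        simp only [hz]
        rw [h6, Finset.sum_mul]
        refine Finset.sum_congr rfl fun x hx => ?_
        rw [hFm] at hx
        have h7 : (π : Equiv.Perm X)⁻¹ ((π : Equiv.Perm X) x) = x := by simp
        rw [h7, ← hx, hbY]
      have h5 : ∀ π : 𝒢, ∑ y ∈ RY, z T (aY π y) * bY y = 0 := by
        intro π
        have h6 := h4 π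
        rw [sum_univ_eq cY hcYcc RY hRY] at h6
        have h7 : ∑ y ∈ RY, z T (aY π (cY y)) * bY (cY y) = ∑ y ∈ RY, z T (aY π y) * bY y := by
          refine Finset.sum_congr rfl fun y _ => ?_
          rw [haYc, hzc, hbYc]
          ring
        rw [h7] at h6
        have h8 : (2 : ZMod l) * ∑ y ∈ RY, z T (aY π y) * bY y = 0 := by linear_combination h6
        rcases mul_eq_zero.1 h8 with h9 | h9
        · exact absurd h9 h2
        · exact h9
      -- the matrix
      have hA : Matrix.scalar RY (2 * ((O.filter (fun x => x ∈ Φ)).card : ZMod l) -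
          (O.card : ZMod l)) + B T' = Matrix.of fun y y' : RY => z T (aY (h y) y') := by
        ext y y'
        rw [Matrix.add_apply, Matrix.of_apply, Matrix.scalar_apply]
        by_cases hyy : y = y'
        · subst hyy
          rw [Matrix.diagonal_apply_eq, hB]
          simp only [Matrix.of_apply, if_true, add_zero]
          rw [hh]
          simp only [hz]
          have h6 : ∀ x ∈ F y₁, sg T x = if x ∈ Φ then 1 else -1 := by
            intro x hx
            have hxR : x ∈ R := hOR hx
            simp only [hsg, hT, Finset.mem_filter, hxR, true_and, if_true]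
          rw [Finset.sum_congr rfl h6, Finset.sum_ite, Finset.sum_const, Finset.sum_const,
            nsmul_eq_mul, nsmul_eq_mul]
          have h7 : ((F y₁).filter (fun x => x ∈ Φ)).card + ((F y₁).filter (fun x => ¬ x ∈ Φ)).card =
              O.card := Finset.card_filter_add_card_filter_not _
          have h8 : (((F y₁).filter (fun x => x ∈ Φ)).card : ZMod l) +
              (((F y₁).filter (fun x => ¬ x ∈ Φ)).card : ZMod l) = (O.card : ZMod l) := by
            exact_mod_cast congrArg (fun n : ℕ => (n : ZMod l)) h7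
          rw [← h8]
          ring
        · rw [Matrix.diagonal_apply_ne _ hyy, hB, zero_add]
          simp only [Matrix.of_apply, if_neg hyy]
          simp only [hz]
          refine Finset.sum_congr rfl fun x hx => ?_
          rw [hFm] at hx
          have hx1 : x ∉ O := by
            intro hxO
            rw [hO, hFm] at hxO
            have h6 : aY (h y) y' = aY (h y) y := by rw [hh, ← hx, hxO]
            exact hyy (Subtype.ext (haYinj _ _ _ h6).symm)
          have hx2 : c x ∉ O := by
            intro hxO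
            rw [hO, hFm, ← hcY, hx, ← haYc, ← hh y] at hxO
            have h6 := haYinj _ _ _ hxO
            have h7 : (y : Quotient s) ∉ RY := by
              rw [← h6, hRY]
              exact not_not.2 y'.2
            exact h7 y.2
          simp only [hsg, hT, hT', Finset.mem_filter, Finset.mem_sdiff, hx1, hx2, not_false_eq_true,
            and_true]
      rw [hA]
      refine Matrix.exists_mulVec_eq_zero_iff.1 ⟨fun y => bY y, ?_, ?_⟩
      · intro h0
        apply hb0
        have h6 : ∀ y, bY y = 0 := by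
          intro y
          by_cases hy : y ∈ RY
          · exact congrFun h0 ⟨y, hy⟩
          · have h7 := congrFun h0 ⟨cY y, (hRY y).2 hy⟩
            simp only [hbYc, Pi.zero_apply, neg_eq_zero] at h7
            exact h7
        funext x
        rw [← hbY, h6]
        rfl
      · funext y
        simp only [Matrix.mulVec, dotProduct, Matrix.of_apply, Pi.zero_apply]
        rw [← h5 (h y)]
        exact Finset.sum_coe_sort RY (fun y' => z T (aY (h y) y') * bY y')
    · intro Φ Φ' hΦΦ
      apply Subtype.ext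
      refine type_inj c R hR _ _ Φ.2.1 Φ'.2.1 fun x hx => ?_
      have h9 := congrArg Subtype.val hΦΦ
      simp only [Sigma.mk.injEq, heq_eq_eq] at h9
      by_cases hxO : x ∈ O
      · have h10 := congrArg (fun S : Finset X => x ∈ S) h9.2
        simpa [hxO] using h10
      · have h10 := congrArg (fun S : Finset X => x ∈ S) h9.1
        simpa [hxO, hx] using h10
  -- the estimate
  have hO1 : 1 ≤ O.card := hq.trans hOq
  have hOg : O.card ≤ g := by rw [← hRc]; exact Finset.card_le_card hOR
  exact (Nat.cast_le.2 hcard).trans (final_estimate g l m q RY.card O.card Q.card hl0 hOg hO1 hm0 hq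
    hOq hQcard)

end Pool.Agent.H52.LP
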