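import Mathlib

/-!
# Numerical inequality (module LP Num)

`m ≥ 2`, `l ≥ 10 m^2`, `g ≥ m l`, `2 m (D - 1) ≥ l`, `r ≥ 1`, and either `r = m^2`, or `r < m^2` and
`g < 2 (r + 1) D` (this is the case `r = ⌊g / (2D)⌋`).  Then
`(3 r + 1)^D ≥ (3 m^2 - 2)^(l/(2m)) ≥ 4 l^(2m+2) / m^2`, which gives `num_main`.

PROOF.  Work with logarithms.  Put `M = m^2 ≥ 4`.
(1) For integers `2 ≤ s ≤ M`: `log (3 s - 2) / s ≥ log (3 M - 2) / M`: the sequence `log (3 s - 2) / s` is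
decreasing for `s ≥ 2`, i.e. `(3 s + 1)^s ≤ (3 s - 2)^(s+1)`: `s = 2`: `49 ≤ 64`; `s ≥ 3`:
`(1 + 3/(3s-2))^s ≤ exp (3 s/(3 s - 2)) ≤ exp (9/7) ≤ 7 ≤ 3 s - 2`.
(2) `r = M`: `D log (3 M + 1) ≥ l/(2m) log (3 M - 2)` as `D ≥ l/(2m) + 1`.
(3) `r < M`: `D > g / (2 (r+1)) ≥ m l / (2 (r+1))`, so with `s = r + 1` and (1)
`D log (3 r + 1) ≥ (m l / 2) log (3 s - 2) / s ≥ (m l / 2) log (3 M - 2) / M = l/(2m) log (3 M - 2)`.
(4) `l/(2m) log (3 M - 2) ≥ log 4 + (2 m + 2) log l - 2 log m` for `l ≥ 10 m^2`, `m ≥ 2`: put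
`l = 10 m^2 x`, `x ≥ 1`, and `log x ≤ x - 1`; the claim follows from
`5 m log (3 m^2 - 2) ≥ log 4 + (2 m + 2) log (10 m^2) - 2 log m` and `5 m log (3 m^2 - 2) ≥ 2 m + 2`; with
`log (3 m^2 - 2) ≥ 2 log m + log (5/2)` the first one is
`6 m log m ≥ log 4 + 2 log 10 + 2 log m + m (2 log 10 - 5 log (5/2))`, true for `m ≥ 2`
(`m = 2`: `8.317 ≥ 1.387 + 4.606 + 1.387 + 0.048`).
-/

namespace Pool.Agent.H52.LP

/-- `(3 s + 1)^s ≤ (3 s - 2)^(s + 1)` for `s ≥ 2`, in logarithms. -/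
theorem num_step (s : ℕ) (hs : 2 ≤ s) :
    (s : ℝ) * Real.log (3 * s + 1) ≤ (s + 1) * Real.log (3 * s - 2) := by
  rcases Nat.lt_or_ge s 3 with h3 | h3
  · have hs2 : s = 2 := by omega
    subst hs2
    have h1 : (7 : ℝ) ^ 2 ≤ 4 ^ 3 := by norm_num
    have h2 := Real.log_le_log (by norm_num) h1
    rw [Real.log_pow, Real.log_pow] at h2
    have e1 : (3 * ((2 : ℕ) : ℝ) + 1) = 7 := by norm_num
    have e2 : (3 * ((2 : ℕ) : ℝ) - 2) = 4 := by norm_num
    rw [e1, e2]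
    norm_num at h2 ⊢
    linarith
  · have hs' : (3 : ℝ) ≤ (s : ℝ) := by exact_mod_cast h3
    have hp : (0 : ℝ) < 3 * s - 2 := by linarith
    have h1 : (3 * (s : ℝ) + 1) = (3 * s - 2) * (1 + 3 / (3 * s - 2)) := by
      field_simp
      ring
    have hq : (0 : ℝ) < 1 + 3 / (3 * s - 2) := by positivity
    have h2 : Real.log (3 * (s : ℝ) + 1) = Real.log (3 * s - 2) + Real.log (1 + 3 / (3 * s - 2)) := by
      rw [h1, Real.log_mul hp.ne' hq.ne']
    have h3' : Real.log (1 + 3 / (3 * (s : ℝ) - 2)) ≤ 3 / (3 * s - 2) := by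
      have := Real.log_le_sub_one_of_pos hq
      linarith
    have h4 : (s : ℝ) * (3 / (3 * s - 2)) ≤ 9 / 7 := by
      rw [mul_div_assoc', div_le_div_iff₀ hp (by norm_num)]
      nlinarith
    have h5 : (9 / 7 : ℝ) ≤ Real.log (3 * s - 2) := by
      rw [Real.le_log_iff_exp_le hp]
      have e1 : Real.exp (9 / 7) ≤ Real.exp 1 ^ 2 := by
        rw [← Real.exp_nat_mul]
        exact Real.exp_le_exp.mpr (by norm_num)
      have e2 : Real.exp (9 / 7) ≤ 7 := by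
        have e3 : Real.exp (9 / 7) ^ 7 = Real.exp 1 ^ 9 := by
          rw [← Real.exp_nat_mul, ← Real.exp_nat_mul]
          norm_num
        have e4 : Real.exp 1 ^ 9 ≤ 7 ^ 7 := by
          have e5 : Real.exp 1 ≤ 3 := by
            have := Real.exp_one_lt_d9
            linarith
          calc Real.exp 1 ^ 9 ≤ 3 ^ 9 := pow_le_pow_left₀ (Real.exp_pos 1).le e5 9
            _ ≤ 7 ^ 7 := by norm_num
        rw [← e3] at e4
        exact le_of_pow_le_pow_left₀ (by norm_num) (by norm_num) e4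
      linarith
    rw [h2]
    nlinarith [mul_le_mul_of_nonneg_left h3' (by linarith : (0 : ℝ) ≤ (s : ℝ))]

/-- `log (3 s - 2) / s` is decreasing for `s ≥ 2`. -/
theorem num_mono (s M : ℕ) (hs : 2 ≤ s) (hM : s ≤ M) :
    (s : ℝ) * Real.log (3 * M - 2) ≤ M * Real.log (3 * s - 2) := by
  induction M, hM using Nat.le_induction with
  | base => exact le_rfl
  | succ M hM ih =>
    have h1 := num_step M (hs.trans hM)
    have hMp : (0 : ℝ) < M := by
      have : 0 < M := by omega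
      exact_mod_cast this
    have e : (3 * ((M + 1 : ℕ) : ℝ) - 2) = 3 * M + 1 := by push_cast; ring
    rw [e]
    have hsp : (0 : ℝ) ≤ (s : ℝ) := Nat.cast_nonneg s
    have h2 : (M : ℝ) * (s * Real.log (3 * M + 1)) ≤ M * (((M + 1 : ℕ) : ℝ) * Real.log (3 * s - 2)) := by
      calc (M : ℝ) * (s * Real.log (3 * M + 1)) = s * (M * Real.log (3 * M + 1)) := by ring
        _ ≤ s * ((M + 1) * Real.log (3 * M - 2)) := mul_le_mul_of_nonneg_left h1 hsp
        _ = (M + 1) * (s * Real.log (3 * M - 2)) := by ring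
        _ ≤ (M + 1) * (M * Real.log (3 * s - 2)) :=
            mul_le_mul_of_nonneg_left ih (by linarith)
        _ = M * (((M + 1 : ℕ) : ℝ) * Real.log (3 * s - 2)) := by push_cast; ring
    exact le_of_mul_le_mul_left h2 hMp

/-- Step (4). -/
theorem num_four (m l : ℕ) (hm : 2 ≤ m) (hl : 10 * m ^ 2 ≤ l) :
    2 * Real.log 2 + (2 * m + 2) * Real.log l - 2 * Real.log m ≤
      l / (2 * m) * Real.log (3 * (m : ℝ) ^ 2 - 2) := by
  have hm' : (2 : ℝ) ≤ (m : ℝ) := by exact_mod_cast hm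
  have hmp : (0 : ℝ) < (m : ℝ) := by linarith
  have hl' : 10 * (m : ℝ) ^ 2 ≤ (l : ℝ) := by exact_mod_cast hl
  have hm2 : (4 : ℝ) ≤ (m : ℝ) ^ 2 := by nlinarith
  have hlp : (0 : ℝ) < (l : ℝ) := by linarith
  obtain ⟨x, hx⟩ : ∃ x : ℝ, x = l / (10 * (m : ℝ) ^ 2) := ⟨_, rfl⟩
  have h10 : (0 : ℝ) < 10 * (m : ℝ) ^ 2 := by positivity
  have hlx : (l : ℝ) = 10 * (m : ℝ) ^ 2 * x := by
    rw [hx]; field_simp
  have hx1 : 1 ≤ x := by
    rw [hx, le_div_iff₀ h10]; linarith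
  have hxp : 0 < x := by linarith
  have hlog : Real.log l ≤ Real.log (10 * (m : ℝ) ^ 2) + (x - 1) := by
    rw [hlx, Real.log_mul h10.ne' hxp.ne']
    have := Real.log_le_sub_one_of_pos hxp
    linarith
  have hL : Real.log (10 * (m : ℝ) ^ 2) = Real.log 2 + Real.log 5 + 2 * Real.log m := by
    have e : (10 : ℝ) * (m : ℝ) ^ 2 = 2 * 5 * (m : ℝ) ^ 2 := by ring
    rw [e, Real.log_mul (by norm_num) (by positivity), Real.log_mul (by norm_num) (by norm_num),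
      Real.log_pow]
    norm_num
  have hl2 : 0 < Real.log 2 := Real.log_pos (by norm_num)
  have hl5 : 2 * Real.log 2 ≤ Real.log 5 := by
    have h1 : (2 : ℝ) ^ 2 ≤ 5 := by norm_num
    have h2 := Real.log_le_log (by norm_num) h1
    rw [Real.log_pow] at h2
    exact_mod_cast h2
  have hlm : Real.log 2 ≤ Real.log m := Real.log_le_log (by norm_num) hm'
  have hLam : 2 * Real.log m + (Real.log 5 - Real.log 2) ≤ Real.log (3 * (m : ℝ) ^ 2 - 2) := by
    have h1 : (5 / 2 : ℝ) * (m : ℝ) ^ 2 ≤ 3 * (m : ℝ) ^ 2 - 2 := by linarith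
    have h2 := Real.log_le_log (by positivity) h1
    rw [Real.log_mul (by norm_num) (by positivity), Real.log_pow,
      Real.log_div (by norm_num) (by norm_num)] at h2
    push_cast at h2
    linarith
  have hLam1 : 1 ≤ Real.log (3 * (m : ℝ) ^ 2 - 2) := by
    rw [Real.le_log_iff_exp_le (by linarith)]
    have := Real.exp_one_lt_d9
    linarith
  obtain ⟨La, hLa⟩ : ∃ La : ℝ, La = Real.log (3 * (m : ℝ) ^ 2 - 2) := ⟨_, rfl⟩
  rw [← hLa] at hLam hLam1 ⊢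
  have e1 : (l : ℝ) / (2 * m) = 5 * m * x := by
    rw [hlx]; field_simp; ring
  rw [e1]
  have hT : 0 ≤ (x - 1) * (5 * m * La - (2 * m + 2)) := by
    apply mul_nonneg (by linarith)
    nlinarith
  have hK : 2 * Real.log 2 + (2 * m + 2) * Real.log (10 * (m : ℝ) ^ 2) - 2 * Real.log m ≤
      5 * m * La := by
    rw [hL]
    have h1 : 5 * (m : ℝ) * (2 * Real.log m + (Real.log 5 - Real.log 2)) ≤ 5 * m * La :=
      mul_le_mul_of_nonneg_left hLam (by positivity)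
    have h2 : (6 * (m : ℝ) - 2) * Real.log 2 ≤ (6 * m - 2) * Real.log m :=
      mul_le_mul_of_nonneg_left hlm (by linarith)
    have h3 : (3 * (m : ℝ) - 2) * (2 * Real.log 2) ≤ (3 * m - 2) * Real.log 5 :=
      mul_le_mul_of_nonneg_left hl5 (by linarith)
    have h4 : 0 ≤ (5 * (m : ℝ) - 10) * Real.log 2 := mul_nonneg (by linarith) hl2.le
    nlinarith
  have h5 : (2 * (m : ℝ) + 2) * Real.log l ≤
      (2 * m + 2) * (Real.log (10 * (m : ℝ) ^ 2) + (x - 1)) :=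
    mul_le_mul_of_nonneg_left hlog (by linarith)
  nlinarith

/-- From logarithms to the statement. -/
theorem num_end (m l D : ℕ) (A : ℝ) (hm : 2 ≤ m) (hl : 10 * m ^ 2 ≤ l) (hA : 0 < A)
    (h : 2 * Real.log 2 + (2 * m + 2) * Real.log l - 2 * Real.log m ≤ 2 * (D * Real.log A)) :
    (1 / A) ^ D ≤ (m : ℝ) / (2 * (l : ℝ) ^ (m + 1)) := by
  have hm' : (2 : ℝ) ≤ (m : ℝ) := by exact_mod_cast hm
  have hmp : (0 : ℝ) < (m : ℝ) := by linarith
  have hl' : 10 * (m : ℝ) ^ 2 ≤ (l : ℝ) := by exact_mod_cast hl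
  have hlp : (0 : ℝ) < (l : ℝ) := by nlinarith
  rw [one_div, inv_pow, inv_le_comm₀ (by positivity) (by positivity), inv_div]
  rw [← Real.log_le_log_iff (by positivity) (by positivity), Real.log_pow,
    Real.log_div (by positivity) (by positivity), Real.log_mul (by norm_num) (by positivity),
    Real.log_pow]
  push_cast
  linarith

theorem num_main (m l g D r : ℕ) (hm : 2 ≤ m) (hl : 10 * m ^ 2 ≤ l) (hg : m * l ≤ g)
    (hD : l ≤ 2 * m * (D - 1)) (hr1 : 1 ≤ r) (hr : r = m ^ 2 ∨ (r < m ^ 2 ∧ g < 2 * (r + 1) * D)) :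
    (1 / Real.sqrt (3 * r + 1)) ^ D ≤ (m : ℝ) / (2 * (l : ℝ) ^ (m + 1)) := by
  have hm' : (2 : ℝ) ≤ (m : ℝ) := by exact_mod_cast hm
  have hmp : (0 : ℝ) < (m : ℝ) := by linarith
  have hl' : 10 * (m : ℝ) ^ 2 ≤ (l : ℝ) := by exact_mod_cast hl
  have hm2 : (4 : ℝ) ≤ (m : ℝ) ^ 2 := by nlinarith
  have hlp : (0 : ℝ) < (l : ℝ) := by linarith
  have hrp : (0 : ℝ) < 3 * (r : ℝ) + 1 := by positivity
  refine num_end m l D _ hm hl (Real.sqrt_pos.mpr hrp) ?_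
  refine (num_four m l hm hl).trans ?_
  rw [Real.log_sqrt hrp.le]
  have e0 : 2 * ((D : ℝ) * (Real.log (3 * r + 1) / 2)) = D * Real.log (3 * r + 1) := by ring
  rw [e0]
  have hpos : 0 < Real.log (3 * (m : ℝ) ^ 2 - 2) := Real.log_pos (by linarith)
  rcases hr with hr | ⟨hr, hgD⟩
  · have hD' : (l : ℝ) / (2 * m) ≤ (D : ℝ) := by
      rw [div_le_iff₀ (by positivity)]
      have h1 : l ≤ 2 * m * D := hD.trans (Nat.mul_le_mul_left _ (Nat.sub_le D 1))
      have h2 : (l : ℝ) ≤ 2 * m * D := by exact_mod_cast h1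
      linarith
    have hlg : Real.log (3 * (m : ℝ) ^ 2 - 2) ≤ Real.log (3 * r + 1) := by
      apply Real.log_le_log (by linarith)
      rw [hr]; push_cast; linarith
    exact mul_le_mul hD' hlg hpos.le (Nat.cast_nonneg D)
  · have hs := num_mono (r + 1) (m ^ 2) (by omega) (by omega)
    have e1 : (3 * ((r + 1 : ℕ) : ℝ) - 2) = 3 * r + 1 := by push_cast; ring
    have e2 : (3 * ((m ^ 2 : ℕ) : ℝ) - 2) = 3 * (m : ℝ) ^ 2 - 2 := by push_cast; ring
    rw [e1, e2] at hs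
    push_cast at hs
    have h1 : m * l < 2 * (r + 1) * D := lt_of_le_of_lt hg hgD
    have h2 : (m : ℝ) * l ≤ 2 * ((r : ℝ) + 1) * D := by exact_mod_cast h1.le
    have hLp : 0 < Real.log (3 * (r : ℝ) + 1) := Real.log_pos (by
      have : (1 : ℝ) ≤ r := by exact_mod_cast hr1
      linarith)
    rw [div_mul_eq_mul_div, div_le_iff₀ (by positivity)]
    -- l * La ≤ D * Lr * (2 * m)
    have h3 : (m : ℝ) * l * ((m : ℝ) * Real.log (3 * r + 1)) ≤
        2 * ((r : ℝ) + 1) * D * (m * Real.log (3 * r + 1)) :=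
      mul_le_mul_of_nonneg_right h2 (by positivity)
    have h4 : (l : ℝ) * (((r : ℝ) + 1) * Real.log (3 * (m : ℝ) ^ 2 - 2)) ≤
        l * ((m : ℝ) ^ 2 * Real.log (3 * r + 1)) := mul_le_mul_of_nonneg_left hs hlp.le
    have h5 : ((r : ℝ) + 1) * (l * Real.log (3 * (m : ℝ) ^ 2 - 2)) ≤
        ((r : ℝ) + 1) * (D * Real.log (3 * r + 1) * (2 * m)) := by nlinarith
    exact le_of_mul_le_mul_left h5 (by positivity)

/-- The case `g < 2 D`. -/
theorem num_odl (m l g D : ℕ) (hm : 2 ≤ m) (hl : 10 * m ^ 2 ≤ l) (hg : m * l ≤ g)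
    (hD : g < 2 * D) : ((1 : ℝ) / 2) ^ D ≤ (m : ℝ) / (2 * (l : ℝ) ^ (m + 1)) := by
  have hm' : (2 : ℝ) ≤ (m : ℝ) := by exact_mod_cast hm
  have hmp : (0 : ℝ) < (m : ℝ) := by linarith
  have hl' : 10 * (m : ℝ) ^ 2 ≤ (l : ℝ) := by exact_mod_cast hl
  have hm2 : (4 : ℝ) ≤ (m : ℝ) ^ 2 := by nlinarith
  have hlp : (0 : ℝ) < (l : ℝ) := by linarith
  refine num_end m l D 2 hm hl (by norm_num) ?_
  refine (num_four m l hm hl).trans ?_
  have hs := num_mono 2 (m ^ 2) le_rfl (by nlinarith)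
  have e1 : (3 * ((2 : ℕ) : ℝ) - 2) = 2 ^ 2 := by push_cast; ring
  have e2 : (3 * ((m ^ 2 : ℕ) : ℝ) - 2) = 3 * (m : ℝ) ^ 2 - 2 := by push_cast; ring
  rw [e1, e2, Real.log_pow] at hs
  push_cast at hs
  have h1 : (m : ℝ) * l ≤ 2 * D := by exact_mod_cast (lt_of_le_of_lt hg hD).le
  have hl2 : 0 < Real.log 2 := Real.log_pos (by norm_num)
  rw [div_mul_eq_mul_div, div_le_iff₀ (by positivity)]
  have h3 : (m : ℝ) * l * ((m : ℝ) * Real.log 2) ≤ 2 * D * (m * Real.log 2) :=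
    mul_le_mul_of_nonneg_right h1 (by positivity)
  have h4 : (l : ℝ) * (2 * Real.log (3 * (m : ℝ) ^ 2 - 2)) ≤
      l * ((m : ℝ) ^ 2 * (2 * Real.log 2)) := mul_le_mul_of_nonneg_left hs hlp.le
  have h5 : 0 ≤ (D : ℝ) * (m * Real.log 2) := by positivity
  nlinarith

end Pool.Agent.H52.LP
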