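import Mathlib
import Pool.Agent.H52.MF.Avg
import Pool.Agent.H52.MF.Count

/-!
# Orbits of a Sylow subgroup (module LP Orb)

`X` is a finite set with `2 m l^k` elements, `c` an involution of `X` without fixed points, `𝒢` a
transitive group of permutations that commute with `c`, `l` an odd prime.

PROOF of `exists_sylow`.  As in `Pool/Agent/H52/MF/Syl.lean` (`sylow_trans`, `exists_pgroup`; look at it,
most of the text can be copied): let `P` be a Sylow `l`-subgroup of `𝒢` (acting on `X`), mapped to
`Equiv.Perm X`.  The orbit of `x` under `P` has `relIndex` many elements; `l^k` divides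
`Nat.card X = 2 (m l^k)` = the index of the stabilizer, and so `l^k` divides the size of the orbit.

PROOF of `card_range_le`.  Let `Y` be the set of orbits of `P` (the quotient by the relation
`∃ π ∈ P, π x = y`).  All orbits have at least `l^k` elements, so `Y.card * l^k ≤ 2 m l^k`, so
`Y.card ≤ 2 m`; `b` is a function on `Y`.

PROOF of `card_inv_le`.  `c` acts on `Y`.  It has no fixed point there: if `π x = c x` with `π ∈ P`, then
`π (π x) = π (c x) = c (π x) = x`, so `π ^ 2` fixes `x`; `π` has odd order (a power of `l`), so `π` fixes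
`x`, and `c x = x`, a contradiction.  So `Y` has an even number of elements, at most `2 m`, there is
a set `R` of at most `m` orbits with exactly one of `y`, `c y` for every `y` (compare
`exists_section` in `Pool/Agent/H52/MF/Count.lean` and `card_R` in `Pool/Agent/H52/MF/Avg.lean`), and an odd
`P`-invariant function is determined by its values on `R`.
-/

namespace Pool.Agent.H52.LP

theorem sylow_orbit {G Y : Type*} [Group G] [Finite G] [MulAction G Y] [Finite Y]
    [MulAction.IsPretransitive G Y] (l k : ℕ) [Fact l.Prime] (hY : l ^ k ∣ Nat.card Y)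
    (P : Sylow l G) (y : Y) : l ^ k ≤ (MulAction.orbit (P : Subgroup G) y).ncard := by
  have hl : l.Prime := Fact.out
  set S := MulAction.stabilizer G y with hS
  have h1 : S.index = Nat.card Y := by
    rw [hS, MulAction.index_stabilizer_of_transitive]
  have h2 : (MulAction.stabilizer (P : Subgroup G) y).index =
      (MulAction.orbit (P : Subgroup G) y).ncard := MulAction.index_stabilizer _ _
  have h3 : MulAction.stabilizer (P : Subgroup G) y = S.subgroupOf (P : Subgroup G) := by
    ext p
    simp only [MulAction.mem_stabilizer_iff, Subgroup.mem_subgroupOf, hS]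
    rfl
  have h4 : S.relIndex (P : Subgroup G) = (MulAction.orbit (P : Subgroup G) y).ncard := by
    rw [← h2, h3]
    rfl
  have h5 : S.relIndex (P : Subgroup G) * (P : Subgroup G).index = (S ⊓ (P : Subgroup G)).index := by
    rw [← Subgroup.inf_relIndex_right]
    exact Subgroup.relIndex_mul_index inf_le_right
  have h6 : (S ⊓ (P : Subgroup G)).relIndex S * S.index = (S ⊓ (P : Subgroup G)).index :=
    Subgroup.relIndex_mul_index inf_le_left
  have h7 : l ^ k ∣ S.relIndex (P : Subgroup G) * (P : Subgroup G).index := by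
    rw [h5, ← h6, h1]
    exact hY.trans (dvd_mul_left _ _)
  have h8 : Nat.Coprime (l ^ k) (P : Subgroup G).index := by
    apply Nat.Coprime.pow_left
    rw [Nat.Prime.coprime_iff_not_dvd hl]
    exact P.not_dvd_index
  have h9 : l ^ k ∣ S.relIndex (P : Subgroup G) := h8.dvd_of_dvd_mul_right h7
  have h10 : 0 < (MulAction.orbit (P : Subgroup G) y).ncard := by
    rw [Set.ncard_pos]
    exact ⟨y, MulAction.mem_orbit_self y⟩
  rw [h4] at h9
  exact Nat.le_of_dvd h10 h9

theorem exists_sylow {X : Type} [Fintype X] (𝒢 : Subgroup (Equiv.Perm X))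
    (htr : ∀ x y, ∃ π ∈ 𝒢, π x = y) (l m k : ℕ) (hl : l.Prime) (hm : 1 ≤ m)
    (hg : Fintype.card X = 2 * (m * l ^ k)) :
    ∃ P : Subgroup (Equiv.Perm X), P ≤ 𝒢 ∧ IsPGroup l P ∧
      ∀ x, l ^ k ≤ Nat.card {y : X // ∃ π ∈ P, π x = y} := by
  classical
  have : Fact l.Prime := ⟨hl⟩
  have hpre : MulAction.IsPretransitive 𝒢 X := by
    constructor
    intro x y
    obtain ⟨π, hπ, hxy⟩ := htr x y
    exact ⟨⟨π, hπ⟩, hxy⟩
  obtain ⟨P⟩ : Nonempty (Sylow l 𝒢) := inferInstance
  refine ⟨(P : Subgroup 𝒢).map 𝒢.subtype, ?_, P.isPGroup'.map _, ?_⟩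
  · rintro _ ⟨π, -, rfl⟩
    exact π.2
  · intro x
    have hdvd : l ^ k ∣ Nat.card X := by
      rw [Nat.card_eq_fintype_card, hg]
      exact Dvd.intro_left (2 * m) (by ring)
    have h1 := sylow_orbit l k hdvd P x
    refine h1.trans (le_of_eq ?_)
    rw [← Nat.card_coe_set_eq]
    apply Nat.card_congr
    apply Equiv.subtypeEquivRight
    intro y
    constructor
    · rintro ⟨p, hp⟩
      exact ⟨(p : 𝒢), ⟨p, p.2, rfl⟩, hp⟩
    · rintro ⟨_, ⟨p, hp, rfl⟩, hxy⟩
      exact ⟨⟨p, hp⟩, hxy⟩

open Classical in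
theorem card_range_le {X : Type} [Fintype X] (l m k : ℕ) (hl : l.Prime)
    (P : Subgroup (Equiv.Perm X)) (hP : ∀ x, l ^ k ≤ Nat.card {y : X // ∃ π ∈ P, π x = y})
    (hg : Fintype.card X = 2 * (m * l ^ k)) (b : X → ZMod l)
    (hb : ∀ π ∈ P, ∀ x, b (π x) = b x) : (Finset.univ.image b).card ≤ 2 * m := by
  have h1 : Fintype.card X = ∑ v ∈ Finset.univ.image b,
      (Finset.univ.filter (fun x => b x = v)).card :=
    Finset.card_eq_sum_card_fiberwise (fun x _ =>
      Finset.mem_coe.2 (Finset.mem_image_of_mem b (Finset.mem_univ x)))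
  have h2 : ∀ v ∈ Finset.univ.image b, l ^ k ≤ (Finset.univ.filter (fun x => b x = v)).card := by
    intro v hv
    obtain ⟨x, -, rfl⟩ := Finset.mem_image.1 hv
    refine (hP x).trans ?_
    rw [Nat.card_eq_fintype_card, Fintype.card_subtype]
    apply Finset.card_le_card
    intro y hy
    rw [Finset.mem_filter] at hy ⊢
    obtain ⟨-, π, hπ, rfl⟩ := hy
    exact ⟨Finset.mem_univ _, hb π hπ x⟩
  have h3 : (Finset.univ.image b).card * l ^ k ≤ (2 * m) * l ^ k := by
    calc (Finset.univ.image b).card * l ^ k = ∑ v ∈ Finset.univ.image b, l ^ k := by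
          rw [Finset.sum_const, smul_eq_mul]
      _ ≤ ∑ v ∈ Finset.univ.image b, (Finset.univ.filter (fun x => b x = v)).card :=
          Finset.sum_le_sum h2
      _ = (2 * m) * l ^ k := by rw [← h1, hg]; ring
  exact Nat.le_of_mul_le_mul_right h3 (pow_pos hl.pos k)

theorem card_inv_le {X : Type} [Fintype X] (c : X → X) (hcc : ∀ x, c (c x) = x)
    (hc : ∀ x, c x ≠ x) (l m k : ℕ) (hl : l.Prime) (hodd : Odd l)
    (P : Subgroup (Equiv.Perm X)) (hPl : IsPGroup l P) (hcomm : ∀ π ∈ P, ∀ x, π (c x) = c (π x))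
    (hP : ∀ x, l ^ k ≤ Nat.card {y : X // ∃ π ∈ P, π x = y})
    (hg : Fintype.card X = 2 * (m * l ^ k)) :
    Nat.card {b : X → ZMod l // (∀ x, b (c x) = - b x) ∧ ∀ π ∈ P, ∀ x, b (π x) = b x} ≤ l ^ m := by
  classical
  let s : Setoid X :=
    { r := fun x y => ∃ π ∈ P, π x = y
      iseqv :=
        { refl := fun x => ⟨1, P.one_mem, rfl⟩
          symm := by
            rintro x y ⟨π, hπ, rfl⟩
            exact ⟨π⁻¹, P.inv_mem hπ, Equiv.symm_apply_apply π x⟩
          trans := by
            rintro x y z ⟨π, hπ, rfl⟩ ⟨ρ, hρ, rfl⟩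
            exact ⟨ρ * π, P.mul_mem hρ hπ, rfl⟩ } }
  let Y := Quotient s
  let cY : Y → Y := Quotient.map' c (by
    rintro x y ⟨π, hπ, rfl⟩
    exact ⟨π, hπ, hcomm π hπ x⟩)
  have hcYmk : ∀ x, cY (Quotient.mk s x) = Quotient.mk s (c x) := fun x => rfl
  have hcYY : ∀ q, cY (cY q) = q := by
    intro q
    induction q using Quotient.inductionOn with
    | h x => rw [hcYmk, hcYmk, hcc]
  have hcY : ∀ q, cY q ≠ q := by
    intro q
    induction q using Quotient.inductionOn with
    | h x =>
      intro h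
      rw [hcYmk] at h
      obtain ⟨π, hπ, hx⟩ := Quotient.exact h.symm
      have h1 : (π ^ 2) x = x := by
        rw [pow_two, Equiv.Perm.mul_apply, hx, hcomm π hπ, hx, hcc]
      obtain ⟨j, hj⟩ := hPl ⟨π, hπ⟩
      have hj2 : π ^ (l ^ j) = 1 := congrArg Subtype.val hj
      obtain ⟨a, ha⟩ := hodd.pow (n := j)
      have h2 : ∀ a : ℕ, ((π ^ 2) ^ a) x = x := by
        intro a
        induction a with
        | zero => rfl
        | succ a ih => rw [pow_succ, Equiv.Perm.mul_apply, h1, ih]
      have h3 : (π ^ (l ^ j)) x = π x := by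
        rw [ha, pow_succ', pow_mul, Equiv.Perm.mul_apply, h2]
      rw [hj2, Equiv.Perm.one_apply, hx] at h3
      exact hc x h3.symm
  let _ : Fintype Y := Fintype.ofFinite Y
  obtain ⟨R, hR⟩ := Pool.Agent.H52.MF.exists_section cY hcYY hcY
  have hcardY : Fintype.card Y = R.card + R.card := by
    have h := Pool.Agent.H52.MF.sum_univ_eq cY hcYY R hR (fun _ => 1)
    simpa using h
  have hYle : Fintype.card Y * l ^ k ≤ (2 * m) * l ^ k := by
    have h1 : Fintype.card X = ∑ q : Y, (Finset.univ.filter fun x => Quotient.mk s x = q).card :=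
      Finset.card_eq_sum_card_fiberwise (fun _ _ => Finset.mem_coe.2 (Finset.mem_univ _))
    have h2 : ∀ q : Y, l ^ k ≤ (Finset.univ.filter fun x => Quotient.mk s x = q).card := by
      intro q
      induction q using Quotient.inductionOn with
      | h x =>
        refine (hP x).trans ?_
        rw [Nat.card_eq_fintype_card, Fintype.card_subtype]
        apply Finset.card_le_card
        intro y hy
        rw [Finset.mem_filter] at hy ⊢
        obtain ⟨-, π, hπ, rfl⟩ := hy
        refine ⟨Finset.mem_univ _, ?_⟩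
        exact (Quotient.sound ⟨π, hπ, rfl⟩ : Quotient.mk s x = Quotient.mk s (π x)).symm
    calc Fintype.card Y * l ^ k = ∑ q : Y, l ^ k := by
          rw [Finset.sum_const, Finset.card_univ, smul_eq_mul]
      _ ≤ ∑ q : Y, (Finset.univ.filter fun x => Quotient.mk s x = q).card :=
          Finset.sum_le_sum (fun q _ => h2 q)
      _ = (2 * m) * l ^ k := by rw [← h1, hg]; ring
  have hYm := Nat.le_of_mul_le_mul_right hYle (pow_pos hl.pos k)
  have hRm : R.card ≤ m := by omega
  have : NeZero l := ⟨hl.ne_zero⟩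
  have hinj : Function.Injective (fun (b : {b : X → ZMod l // (∀ x, b (c x) = - b x) ∧
      ∀ π ∈ P, ∀ x, b (π x) = b x}) (q : R) => b.1 (Quotient.out q.1)) := by
    intro b b' h
    apply Subtype.ext
    have key : ∀ x, Quotient.mk s x ∈ R → b.1 x = b'.1 x := by
      intro x hx
      have h1 := congrFun h ⟨Quotient.mk s x, hx⟩
      obtain ⟨π, hπ, h2⟩ := Quotient.exact (Quotient.out_eq (Quotient.mk s x))
      have h3 : b.1 (Quotient.out (Quotient.mk s x)) = b.1 x := by
        rw [← b.2.2 π hπ, h2]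
      have h4 : b'.1 (Quotient.out (Quotient.mk s x)) = b'.1 x := by
        rw [← b'.2.2 π hπ, h2]
      rw [← h3, ← h4]
      exact h1
    funext x
    by_cases hx : Quotient.mk s x ∈ R
    · exact key x hx
    · have h1 : Quotient.mk s (c x) ∈ R := (hR (Quotient.mk s x)).2 hx
      have h2 := key (c x) h1
      rw [b.2.1, b'.2.1, neg_inj] at h2
      exact h2
  calc Nat.card {b : X → ZMod l // (∀ x, b (c x) = - b x) ∧ ∀ π ∈ P, ∀ x, b (π x) = b x}
      ≤ Nat.card (R → ZMod l) := Nat.card_le_card_of_injective _ hinj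
    _ = l ^ R.card := by
        rw [Nat.card_eq_fintype_card, Fintype.card_fun, ZMod.card, Fintype.card_coe]
    _ ≤ l ^ m := Nat.pow_le_pow_right hl.pos hRm

end Pool.Agent.H52.LP
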