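import Mathlib

/-!
# Functions with few values in small modules (module LP Poly)

`l` is a prime.  A function `a : ℕ → ZMod l` that is a combination of the binomial coefficients
`t ↦ C(t, i)`, `i < D ≤ l`, is a polynomial of degree at most `D - 1` in `t`, so if it is not constant it
takes each value at most `D - 1` times on `0, ..., l - 1`.

PROOF of `poly_values`.  Let `p = ∑ i ∈ range D, C (c i * (i.factorial : ZMod l)⁻¹) *
descPochhammer (ZMod l) i`; then `p.eval t = a t` for every natural `t` (`descPochhammer_eval_eq_descFactorial`,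
`Nat.descFactorial_eq_factorial_mul_choose`, and `i.factorial` is a unit for `i < l`), and
`p.natDegree ≤ D - 1`.  For `v ∈ V` the polynomial `p - C v` is not zero (else `a 1 = a 0`), so it has at most
`D - 1` roots; `t ↦ (t : ZMod l)` is injective on `range l`.  So
`l = card (range l) = ∑ v ∈ V, card {t < l | a t = v} ≤ V.card * (D - 1)`.

PROOF of `unip`.  Let `T : U →ₗ U` be `f ↦ f ∘ σ`, so `(T ^ t) f = f ∘ σ ^ t`.  `T ^ (l ^ n) = 1`, so
`(T - 1) ^ (l ^ n) = 0` (`sub_pow_char_pow_of_commute`; the algebra `Module.End (ZMod l) U` has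
characteristic `l` if `U` is nontrivial; if `f = 0` the claim is trivial), so `T - 1` is nilpotent and
`(T - 1) ^ D = 0` with `D = finrank U`.  `T ^ t = (1 + (T - 1)) ^ t = ∑ i, C(t, i) (T - 1) ^ i`
(`Commute.add_pow`), the terms with `i ≥ D` vanish; evaluate at `f` and `x`: `c i = ((T - 1) ^ i f) x`.

PROOF of `small_invariant`.  If `f (σ x) ≠ f x` take `a t = f ((σ ^ t) x)` in `unip` and `poly_values`.
-/

namespace Pool.Agent.H52.LP

theorem poly_values (l : ℕ) [Fact l.Prime] (D : ℕ) (hD : D ≤ l) (c : ℕ → ZMod l)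
    (V : Finset (ZMod l)) (a : ℕ → ZMod l)
    (ha : ∀ t, a t = ∑ i ∈ Finset.range D, (t.choose i : ZMod l) * c i)
    (hne : a 1 ≠ a 0) (hV : ∀ t, a t ∈ V) : l ≤ V.card * (D - 1) := by
  classical
  have hl : l.Prime := Fact.out
  obtain ⟨p, hp⟩ : ∃ p : Polynomial (ZMod l), p = ∑ i ∈ Finset.range D,
    Polynomial.C (c i * ((i.factorial : ℕ) : ZMod l)⁻¹) * descPochhammer (ZMod l) i := ⟨_, rfl⟩
  have hfac : ∀ i ∈ Finset.range D, ((i.factorial : ℕ) : ZMod l) ≠ 0 := by
    intro i hi h0
    rw [ZMod.natCast_eq_zero_iff, hl.dvd_factorial] at h0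
    have := Finset.mem_range.1 hi
    omega
  have heval : ∀ t : ℕ, p.eval (t : ZMod l) = a t := by
    intro t
    rw [hp, Polynomial.eval_finsetSum, ha]
    apply Finset.sum_congr rfl
    intro i hi
    rw [Polynomial.eval_mul, Polynomial.eval_C, descPochhammer_eval_eq_descFactorial,
      Nat.descFactorial_eq_factorial_mul_choose]
    have h1 := hfac i hi
    push_cast
    field_simp
  have hdeg : p.natDegree ≤ D - 1 := by
    rw [hp]
    apply Polynomial.natDegree_sum_le_of_forall_le
    intro i hi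
    refine (Polynomial.natDegree_C_mul_le _ _).trans ?_
    rw [descPochhammer_natDegree]
    have := Finset.mem_range.1 hi
    omega
  have hfib : ∀ v ∈ V, ((Finset.range l).filter (fun t => a t = v)).card ≤ D - 1 := by
    intro v _
    have hne0 : p - Polynomial.C v ≠ 0 := by
      intro h0
      apply hne
      have h1 : p = Polynomial.C v := sub_eq_zero.1 h0
      rw [← heval 1, ← heval 0, h1, Polynomial.eval_C, Polynomial.eval_C]
    have h1 : ((Finset.range l).filter (fun t => a t = v)).card ≤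
        (p - Polynomial.C v).roots.toFinset.card := by
      apply Finset.card_le_card_of_injOn (fun t : ℕ => (t : ZMod l))
      · intro t ht
        rw [Finset.mem_coe, Finset.mem_filter] at ht
        rw [Finset.mem_coe, Multiset.mem_toFinset, Polynomial.mem_roots hne0,
          Polynomial.IsRoot.def, Polynomial.eval_sub, Polynomial.eval_C, heval, ht.2, sub_self]
      · intro t ht t' ht' h
        rw [Finset.mem_coe, Finset.mem_filter, Finset.mem_range] at ht ht'
        have h2 : (t : ZMod l) = (t' : ZMod l) := h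
        rw [ZMod.natCast_eq_natCast_iff'] at h2
        rwa [Nat.mod_eq_of_lt ht.1, Nat.mod_eq_of_lt ht'.1] at h2
    refine h1.trans ((Multiset.toFinset_card_le _).trans ((Polynomial.card_roots' _).trans ?_))
    rw [Polynomial.natDegree_sub_C]
    exact hdeg
  calc l = (Finset.range l).card := (Finset.card_range l).symm
    _ = ∑ v ∈ V, ((Finset.range l).filter (fun t => a t = v)).card :=
        Finset.card_eq_sum_card_fiberwise (fun t _ => hV t)
    _ ≤ ∑ v ∈ V, (D - 1) := Finset.sum_le_sum hfib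
    _ = V.card * (D - 1) := by rw [Finset.sum_const, smul_eq_mul]

theorem unip (l : ℕ) [Fact l.Prime] {X : Type} [Fintype X] (U : Submodule (ZMod l) (X → ZMod l))
    (D : ℕ) (hD : Module.finrank (ZMod l) U = D) (σ : Equiv.Perm X) (n : ℕ) (hσ : σ ^ (l ^ n) = 1)
    (hst : ∀ f ∈ U, (fun x => f (σ x)) ∈ U) (f : X → ZMod l) (hf : f ∈ U) (x : X) :
    ∃ c : ℕ → ZMod l, ∀ t, f ((σ ^ t) x) = ∑ i ∈ Finset.range D, (t.choose i : ZMod l) * c i := by
  classical
  rcases subsingleton_or_nontrivial U with hU | hU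
  · refine ⟨fun _ => 0, fun t => ?_⟩
    have h0 : (⟨f, hf⟩ : U) = 0 := Subsingleton.elim _ _
    have h1 : f = 0 := congrArg Subtype.val h0
    rw [h1]
    simp
  let T : Module.End (ZMod l) U :=
    { toFun := fun g => ⟨fun x => g.1 (σ x), hst g.1 g.2⟩
      map_add' := fun g h => by
        ext x
        rfl
      map_smul' := fun a g => by
        ext x
        rfl }
  have hT : ∀ (t : ℕ) (g : U) (y : X), ((T ^ t) g : U).1 y = g.1 ((σ ^ t) y) := by
    intro t
    induction t with
    | zero =>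
      intro g y
      simp
    | succ t ih =>
      intro g y
      rw [pow_succ, Module.End.mul_apply, ih (T g) y]
      show g.1 (σ ((σ ^ t) y)) = _
      rw [pow_succ', Equiv.Perm.mul_apply]
  have hT1 : T ^ (l ^ n) = 1 := by
    apply LinearMap.ext
    intro g
    apply Subtype.ext
    funext y
    rw [hT, hσ]
    rfl
  have : CharP (Module.End (ZMod l) U) l :=
    charP_of_injective_algebraMap (algebraMap (ZMod l) (Module.End (ZMod l) U)).injective l
  have hnil : (T - 1) ^ (l ^ n) = 0 := by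
    rw [sub_pow_char_pow_of_commute l n (Commute.one_right T), hT1, one_pow, sub_self]
  have hND : (T - 1) ^ D = 0 := by
    have h1 : IsNilpotent (T - 1) := ⟨_, hnil⟩
    rw [LinearMap.isNilpotent_iff_charpoly, hD] at h1
    have h2 := LinearMap.aeval_self_charpoly (T - 1)
    rw [h1] at h2
    simpa using h2
  refine ⟨fun i => (((T - 1) ^ i) ⟨f, hf⟩ : U).1 x, fun t => ?_⟩
  have h1 : T ^ t = ∑ m ∈ Finset.range (t + 1), (T - 1) ^ m * 1 ^ (t - m) * (t.choose m : ℕ) := by
    have h2 : T = (T - 1) + 1 := by rw [sub_add_cancel]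
    conv_lhs => rw [h2]
    rw [(Commute.one_right (T - 1)).add_pow]
  have h3 : f ((σ ^ t) x) = ∑ m ∈ Finset.range (t + 1),
      (t.choose m : ZMod l) * (((T - 1) ^ m) ⟨f, hf⟩ : U).1 x := by
    have h7 := hT t ⟨f, hf⟩ x
    have h8 : f ((σ ^ t) x) = ((T ^ t) ⟨f, hf⟩ : U).1 x := h7.symm
    rw [h8, h1, LinearMap.sum_apply]
    rw [AddSubmonoidClass.coe_finsetSum, Finset.sum_apply]
    apply Finset.sum_congr rfl
    intro m _
    rw [one_pow, mul_one, ← nsmul_eq_mul', LinearMap.smul_apply, Submodule.coe_smul_of_tower]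
    rw [Pi.smul_apply, nsmul_eq_mul]
  rw [h3]
  have h4 : ∑ m ∈ Finset.range (t + 1),
      (t.choose m : ZMod l) * (((T - 1) ^ m) ⟨f, hf⟩ : U).1 x =
      ∑ m ∈ Finset.range (t + 1 + D),
      (t.choose m : ZMod l) * (((T - 1) ^ m) ⟨f, hf⟩ : U).1 x := by
    apply Finset.sum_subset
    · intro m hm
      rw [Finset.mem_range] at hm ⊢
      omega
    · intro m _ hm
      rw [Finset.mem_range] at hm
      rw [Nat.choose_eq_zero_of_lt (by omega)]
      simp
  have h5 : ∑ m ∈ Finset.range D,
      (t.choose m : ZMod l) * (((T - 1) ^ m) ⟨f, hf⟩ : U).1 x =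
      ∑ m ∈ Finset.range (t + 1 + D),
      (t.choose m : ZMod l) * (((T - 1) ^ m) ⟨f, hf⟩ : U).1 x := by
    apply Finset.sum_subset
    · intro m hm
      rw [Finset.mem_range] at hm ⊢
      omega
    · intro m _ hm
      rw [Finset.mem_range] at hm
      have h6 : (T - 1) ^ m = 0 := by
        obtain ⟨k, rfl⟩ : ∃ k, m = D + k := ⟨m - D, by omega⟩
        rw [pow_add, hND, zero_mul]
      rw [h6]
      simp
  rw [h4, h5]

theorem small_invariant (l : ℕ) [Fact l.Prime] {X : Type} [Fintype X]
    (U : Submodule (ZMod l) (X → ZMod l)) (D : ℕ) (hD : Module.finrank (ZMod l) U = D)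
    (σ : Equiv.Perm X) (n : ℕ) (hσ : σ ^ (l ^ n) = 1) (hst : ∀ f ∈ U, (fun x => f (σ x)) ∈ U)
    (f : X → ZMod l) (hf : f ∈ U) (V : Finset (ZMod l)) (hV : ∀ x, f x ∈ V)
    (h : V.card * (D - 1) < l) (x : X) : f (σ x) = f x := by
  by_contra hne
  obtain ⟨c, hc⟩ := unip l U D hD σ n hσ hst f hf x
  have hVc : 0 < V.card := Finset.card_pos.2 ⟨_, hV x⟩
  have hDl : D ≤ l := by
    have : D - 1 < l := lt_of_le_of_lt (Nat.le_mul_of_pos_left _ hVc) h
    omega
  have h1 := poly_values l D hDl c V (fun t => f ((σ ^ t) x)) hc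
    (by
      show f ((σ ^ 1) x) ≠ f ((σ ^ 0) x)
      rw [pow_one, pow_zero, Equiv.Perm.one_apply]
      exact hne) (fun t => hV _)
  omega

end Pool.Agent.H52.LP
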