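import Mathlib
import Pool.Agent.H52.LP.Poly
import Pool.Agent.H52.LP.Orb
import Pool.Agent.H52.LP.CntM
import Pool.Agent.H52.LP.Inv
import Pool.Agent.H52.LP.Num
import Pool.Agent.H52.MF.FinalT

/-!
# CM fields of degree `2 m l^k`, `l ≥ 10 m^2` a prime

The number of the types orthogonal modulo `l` to the translates of a nonzero odd function that is invariant
under a Sylow `l`-subgroup.
-/

open NumberField Module

namespace Pool.Agent.H52.LP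

open Pool.Agent.H52.MF

section comb

variable {X : Type} [Fintype X] (c : X → X) (hcc : ∀ x, c (c x) = x)

/-- The span of the translates of `b`. -/
noncomputable def trSpan (𝒢 : Subgroup (Equiv.Perm X)) (l : ℕ) (b : X → ZMod l) :
    Submodule (ZMod l) (X → ZMod l) :=
  Submodule.span (ZMod l) {f | ∃ π ∈ 𝒢, f = fun x => b (π x)}

omit [Fintype X] in
lemma trSpan_mem (𝒢 : Subgroup (Equiv.Perm X)) (l : ℕ) (b : X → ZMod l) (π : Equiv.Perm X)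
    (hπ : π ∈ 𝒢) : (fun x => b (π x)) ∈ trSpan 𝒢 l b :=
  Submodule.subset_span ⟨π, hπ, rfl⟩

omit [Fintype X] in
lemma trSpan_stable (𝒢 : Subgroup (Equiv.Perm X)) (l : ℕ) (b : X → ZMod l) (π : Equiv.Perm X)
    (hπ : π ∈ 𝒢) (f : X → ZMod l) (hf : f ∈ trSpan 𝒢 l b) : (fun x => f (π x)) ∈ trSpan 𝒢 l b := by
  refine Submodule.span_induction
    (p := fun f _ => (fun x => f (π x)) ∈ trSpan 𝒢 l b) ?_ ?_ ?_ ?_ hf
  · rintro _ ⟨ρ, hρ, rfl⟩
    exact Submodule.subset_span ⟨ρ * π, 𝒢.mul_mem hρ hπ, rfl⟩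
  · exact Submodule.zero_mem _
  · intro u v _ _ hu hv
    exact Submodule.add_mem _ hu hv
  · intro a u _ hu
    exact Submodule.smul_mem _ a hu

omit [Fintype X] in
lemma trSpan_odd (𝒢 : Subgroup (Equiv.Perm X)) (hcomm : ∀ π ∈ 𝒢, ∀ x, π (c x) = c (π x)) (l : ℕ)
    (b : X → ZMod l) (hb : ∀ x, b (c x) = - b x) (f : X → ZMod l) (hf : f ∈ trSpan 𝒢 l b) (x : X) :
    f (c x) = - f x := by
  refine Submodule.span_induction (p := fun f _ => ∀ x, f (c x) = - f x) ?_ ?_ ?_ ?_ hf x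
  · rintro _ ⟨π, hπ, rfl⟩ x
    simp only [hcomm π hπ, hb]
  · intro x; simp
  · intro u v _ _ hu hv x
    rw [Pi.add_apply, Pi.add_apply, hu, hv]
    ring
  · intro a u _ hu x
    rw [Pi.smul_apply, Pi.smul_apply, hu]
    simp

open Classical in
lemma trSpan_perp (𝒢 : Subgroup (Equiv.Perm X)) (l : ℕ) (b : X → ZMod l) (Φ : Set X)
    (h : ∀ π ∈ 𝒢, ∑ x, (if x ∈ Φ then b (π x) else 0) = 0) (f : X → ZMod l)
    (hf : f ∈ trSpan 𝒢 l b) : ∑ x, (if x ∈ Φ then f x else 0) = 0 := by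
  refine Submodule.span_induction
    (p := fun f _ => ∑ x, (if x ∈ Φ then f x else 0) = 0) ?_ ?_ ?_ ?_ hf
  · rintro _ ⟨π, hπ, rfl⟩
    exact h π hπ
  · simp
  · intro u v _ _ hu hv
    have : ∑ x, (if x ∈ Φ then (u + v) x else 0) = ∑ x, (if x ∈ Φ then u x else 0) +
        ∑ x, (if x ∈ Φ then v x else 0) := by
      rw [← Finset.sum_add_distrib]
      refine Finset.sum_congr rfl fun x _ => ?_
      split_ifs <;> simp
    rw [this, hu, hv, add_zero]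
  · intro a u _ hu
    have : ∑ x, (if x ∈ Φ then (a • u) x else 0) = a * ∑ x, (if x ∈ Φ then u x else 0) := by
      rw [Finset.mul_sum]
      refine Finset.sum_congr rfl fun x _ => ?_
      split_ifs <;> simp
    rw [this, hu, mul_zero]

/-- The normal closure of `P` in `𝒢`. -/
def nclos (𝒢 P : Subgroup (Equiv.Perm X)) : Subgroup (Equiv.Perm X) :=
  Subgroup.closure {τ | ∃ π ∈ 𝒢, ∃ ρ ∈ P, τ = π * ρ * π⁻¹}

omit [Fintype X] in
lemma nclos_le (𝒢 P : Subgroup (Equiv.Perm X)) (hP : P ≤ 𝒢) : nclos 𝒢 P ≤ 𝒢 := by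
  refine (Subgroup.closure_le _).2 ?_
  rintro _ ⟨π, hπ, ρ, hρ, rfl⟩
  exact 𝒢.mul_mem (𝒢.mul_mem hπ (hP hρ)) (𝒢.inv_mem hπ)

omit [Fintype X] in
lemma le_nclos (𝒢 P : Subgroup (Equiv.Perm X)) : P ≤ nclos 𝒢 P := fun ρ hρ =>
  Subgroup.subset_closure ⟨1, 𝒢.one_mem, ρ, hρ, by simp⟩

omit [Fintype X] in
lemma nclos_conj (𝒢 P : Subgroup (Equiv.Perm X)) (π : Equiv.Perm X) (hπ : π ∈ 𝒢)
    (ν : Equiv.Perm X) (hν : ν ∈ nclos 𝒢 P) : π * ν * π⁻¹ ∈ nclos 𝒢 P := by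
  refine Subgroup.closure_induction (p := fun ν _ => π * ν * π⁻¹ ∈ nclos 𝒢 P) ?_ ?_ ?_ ?_ hν
  · rintro _ ⟨σ, hσ, ρ, hρ, rfl⟩
    refine Subgroup.subset_closure ⟨π * σ, 𝒢.mul_mem hπ hσ, ρ, hρ, ?_⟩
    group
  · simp
  · intro u v _ _ hu hv
    have : π * (u * v) * π⁻¹ = (π * u * π⁻¹) * (π * v * π⁻¹) := by group
    rw [this]
    exact (nclos 𝒢 P).mul_mem hu hv
  · intro u _ hu
    have : π * u⁻¹ * π⁻¹ = (π * u * π⁻¹)⁻¹ := by group
    rw [this]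
    exact (nclos 𝒢 P).inv_mem hu

omit [Fintype X] in
lemma nclos_inv (𝒢 P : Subgroup (Equiv.Perm X)) {A : Type*} (b : X → A)
    (h : ∀ π ∈ 𝒢, ∀ ρ ∈ P, ∀ x, b (π (ρ x)) = b (π x)) (ν : Equiv.Perm X) (hν : ν ∈ nclos 𝒢 P)
    (x : X) : b (ν x) = b x := by
  refine Subgroup.closure_induction (p := fun ν _ => ∀ x, b (ν x) = b x) ?_ ?_ ?_ ?_ hν x
  · rintro _ ⟨π, hπ, ρ, hρ, rfl⟩ x
    rw [Equiv.Perm.mul_apply, Equiv.Perm.mul_apply, h π hπ ρ hρ]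
    simp
  · intro x; rfl
  · intro u v _ _ hu hv x
    rw [Equiv.Perm.mul_apply, hu, hv]
  · intro u _ hu x
    have := hu (u⁻¹ x)
    simpa using this.symm

include hcc in
open Classical in
/-- The bound for one function `b` whose translates span a space of dimension `D`, `2 m (D - 1) ≥ l`. -/
theorem count_big (hc : ∀ x, c x ≠ x) (𝒢 : Subgroup (Equiv.Perm X))
    (hcomm : ∀ π ∈ 𝒢, ∀ x, π (c x) = c (π x)) (htr : ∀ x y, ∃ π ∈ 𝒢, π x = y)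
    (l m k : ℕ) [Fact l.Prime] (hk : 1 ≤ k) (hm : 2 ≤ m) (hlm : 10 * m ^ 2 ≤ l)
    (hg : Fintype.card X = 2 * (m * l ^ k)) (b : X → ZMod l) (hb : ∀ x, b (c x) = - b x)
    (hD : l ≤ 2 * m * (finrank (ZMod l) (trSpan 𝒢 l b) - 1)) :
    (Nat.card {Φ : Set X // (∀ x, c x ∈ Φ ↔ x ∉ Φ) ∧
        ∀ π ∈ 𝒢, ∑ x, (if x ∈ Φ then b (π x) else 0) = 0} : ℝ) ≤
      2 ^ (m * l ^ k) * ((m : ℝ) / (2 * (l : ℝ) ^ (m + 1))) := by
  have hlp : l.Prime := Fact.out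
  have hm2 : 4 ≤ m ^ 2 := by nlinarith
  have hodd : Odd l := hlp.odd_of_ne_two (by omega)
  have hlk : l ≤ l ^ k := Nat.le_self_pow (by omega) l
  have hgl : m * l ≤ m * l ^ k := Nat.mul_le_mul_left _ hlk
  have hg1 : 1 ≤ m * l ^ k := by
    have h1 := hlp.two_le
    nlinarith
  set D := finrank (ZMod l) (trSpan 𝒢 l b) with hDdef
  have hsub : (Nat.card {Φ : Set X // (∀ x, c x ∈ Φ ↔ x ∉ Φ) ∧
        ∀ π ∈ 𝒢, ∑ x, (if x ∈ Φ then b (π x) else 0) = 0} : ℝ) ≤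
      Nat.card {Φ : Set X // (∀ x, c x ∈ Φ ↔ x ∉ Φ) ∧
        ∀ f ∈ trSpan 𝒢 l b, ∑ x, (if x ∈ Φ then f x else 0) = 0} := by
    rw [Nat.cast_le]
    refine Nat.card_le_card_of_injective (fun Φ => ⟨Φ.1, Φ.2.1, fun f hf =>
      trSpan_perp 𝒢 l b Φ.1 Φ.2.2 f hf⟩) ?_
    intro Φ Φ' h
    have h' := congrArg Subtype.val h
    exact Subtype.ext h'
  refine hsub.trans ?_
  have hst := fun π hπ f hf => trSpan_stable 𝒢 l b π hπ f hf
  have hoddU := fun f hf x => trSpan_odd c 𝒢 hcomm l b hb f hf x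
  rcases Nat.lt_or_ge (m * l ^ k) (2 * D) with h | h
  · refine (count_mod_odl c hcc hc (m * l ^ k) hg l hodd (trSpan 𝒢 l b) hoddU D rfl).trans ?_
    exact mul_le_mul_of_nonneg_left (num_odl m l (m * l ^ k) D hm hlm hgl h) (by positivity)
  · have hD0 : 0 < D := by
      rcases Nat.eq_zero_or_pos D with h0 | h0
      · rw [h0] at hD
        have := hlp.pos
        omega
      · exact h0
    set r := min (m ^ 2) (m * l ^ k / (2 * D)) with hr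
    have hq1 : 1 ≤ m * l ^ k / (2 * D) := (Nat.one_le_div_iff (by omega)).2 h
    have hr1 : 1 ≤ r := le_min (by omega) hq1
    have hr2 : 2 * r * D ≤ m * l ^ k := by
      calc 2 * r * D = r * (2 * D) := by ring
        _ ≤ m * l ^ k / (2 * D) * (2 * D) := Nat.mul_le_mul_right _ (min_le_right _ _)
        _ ≤ m * l ^ k := Nat.div_mul_le_self _ _
    have hrl : r < l := by
      have : r ≤ m ^ 2 := min_le_left _ _
      omega
    have hr3 : r = m ^ 2 ∨ (r < m ^ 2 ∧ m * l ^ k < 2 * (r + 1) * D) := by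
      rcases Nat.lt_or_ge (m * l ^ k / (2 * D)) (m ^ 2) with h4 | h4
      · right
        have h5 : r = m * l ^ k / (2 * D) := min_eq_right h4.le
        refine ⟨by omega, ?_⟩
        rw [h5]
        have h6 := Nat.lt_mul_div_succ (m * l ^ k) (b := 2 * D) (by omega)
        calc m * l ^ k < 2 * D * (m * l ^ k / (2 * D) + 1) := h6
          _ = 2 * (m * l ^ k / (2 * D) + 1) * D := by ring
      · exact Or.inl (min_eq_left h4)
    refine (count_mod c hcc hc 𝒢 htr (m * l ^ k) hg1 hg l hodd (trSpan 𝒢 l b) hoddU hst D rfl r hr2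
      hrl).trans ?_
    refine mul_le_mul_of_nonneg_left ?_ (by positivity)
    refine le_trans ?_ (num_main m l (m * l ^ k) D r hm hlm hgl hD hr1 hr3)
    exact pow_le_pow_left₀ (by positivity) (centralBinom_le r) D

include hcc in
open Classical in
theorem comb_main (hc : ∀ x, c x ≠ x) (𝒢 : Subgroup (Equiv.Perm X))
    (hcomm : ∀ π ∈ 𝒢, ∀ x, π (c x) = c (π x)) (htr : ∀ x y, ∃ π ∈ 𝒢, π x = y)
    (l m k : ℕ) [Fact l.Prime] (hk : 1 ≤ k) (hm : 2 ≤ m) (hlm : 10 * m ^ 2 ≤ l)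
    (hg : Fintype.card X = 2 * (m * l ^ k)) (P : Subgroup (Equiv.Perm X)) (hPG : P ≤ 𝒢)
    (hPl : IsPGroup l P) (hP : ∀ x, l ^ k ≤ Nat.card {y : X // ∃ π ∈ P, π x = y}) :
    (Nat.card {Φ : Set X // (∀ x, c x ∈ Φ ↔ x ∉ Φ) ∧ ∃ b : X → ZMod l, b ≠ 0 ∧
        (∀ x, b (c x) = - b x) ∧ (∀ π ∈ P, ∀ x, b (π x) = b x) ∧
        ∀ π ∈ 𝒢, ∑ x, (if x ∈ Φ then b (π x) else 0) = 0} : ℝ) ≤
      2 ^ (m * l ^ k) * (m * (1 / Real.sqrt ((l : ℝ) ^ k) + 3 / (2 * l))) := by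
  have hlp : l.Prime := Fact.out
  have hm2 : 4 ≤ m ^ 2 := by nlinarith
  have hodd : Odd l := hlp.odd_of_ne_two (by omega)
  have hl0 : (0 : ℝ) < l := by exact_mod_cast hlp.pos
  have hlk1 : 1 ≤ l ^ k := Nat.one_le_iff_ne_zero.2 (pow_ne_zero _ hlp.ne_zero)
  have hg1 : 1 ≤ m * l ^ k := by nlinarith
  set S : Set (Set X) := {Φ | (∀ x, c x ∈ Φ ↔ x ∉ Φ) ∧ ∃ b : X → ZMod l, b ≠ 0 ∧
        (∀ x, b (c x) = - b x) ∧ (∀ π ∈ P, ∀ x, b (π x) = b x) ∧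
        ∀ π ∈ 𝒢, ∑ x, (if x ∈ Φ then b (π x) else 0) = 0} with hS
  set T : Set (Set X) := {Φ | (∀ x, c x ∈ Φ ↔ x ∉ Φ) ∧ ∃ b : X → ZMod l, b ≠ 0 ∧
        (∀ x, b (c x) = - b x) ∧ (∀ ν ∈ nclos 𝒢 P, ∀ x, b (ν x) = b x) ∧
        ∀ π ∈ 𝒢, ∑ x, (if x ∈ Φ then b (π x) else 0) = 0} with hT
  set ℬ : Finset (X → ZMod l) := Finset.univ.filter fun b =>
    (∀ x, b (c x) = - b x) ∧ ∀ π ∈ P, ∀ x, b (π x) = b x with hℬ
  have hℬcard : ℬ.card ≤ l ^ m := by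
    have h1 := card_inv_le c hcc hc l m k hlp hodd P hPl (fun π hπ => hcomm π (hPG hπ)) hP hg
    rwa [Nat.card_eq_fintype_card, Fintype.card_subtype] at h1
  set ℬ' : Finset (X → ZMod l) := ℬ.filter fun b =>
    l ≤ 2 * m * (finrank (ZMod l) (trSpan 𝒢 l b) - 1) with hℬ'
  set E : (X → ZMod l) → Set (Set X) := fun b => {Φ | (∀ x, c x ∈ Φ ↔ x ∉ Φ) ∧
        ∀ π ∈ 𝒢, ∑ x, (if x ∈ Φ then b (π x) else 0) = 0} with hE
  have hsub : S ⊆ T ∪ ⋃ b ∈ ℬ', E b := by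
    rintro Φ ⟨hΦ, b, hb0, hbo, hbP, hperp⟩
    by_cases hD : l ≤ 2 * m * (finrank (ZMod l) (trSpan 𝒢 l b) - 1)
    · right
      refine Set.mem_iUnion₂.2 ⟨b, ?_, hΦ, hperp⟩
      rw [hℬ', Finset.mem_filter, hℬ, Finset.mem_filter]
      exact ⟨⟨Finset.mem_univ _, hbo, hbP⟩, hD⟩
    · left
      push Not at hD
      refine ⟨hΦ, b, hb0, hbo, ?_, hperp⟩
      intro ν hν x
      refine nclos_inv 𝒢 P b ?_ ν hν x
      intro h hh σ hσ x
      obtain ⟨n, hn⟩ := hPl ⟨σ, hσ⟩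
      have hσn : σ ^ (l ^ n) = 1 := by
        have := congrArg Subtype.val hn
        simpa using this
      have hV := card_range_le l m k hlp P hP hg b hbP
      refine small_invariant l (trSpan 𝒢 l b) _ rfl σ n hσn
        (fun f hf => trSpan_stable 𝒢 l b σ (hPG hσ) f hf) (fun x => b (h x))
        (trSpan_mem 𝒢 l b h hh) (Finset.univ.image b)
        (fun x => Finset.mem_image_of_mem _ (Finset.mem_univ _)) ?_ x
      exact lt_of_le_of_lt (Nat.mul_le_mul_right _ hV) hD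
  have h1 : (S.ncard : ℝ) ≤ T.ncard + ∑ b ∈ ℬ', ((E b).ncard : ℝ) := by
    have h2 : S.ncard ≤ (T ∪ ⋃ b ∈ ℬ', E b).ncard := Set.ncard_le_ncard hsub (Set.toFinite _)
    have h3 : (T ∪ ⋃ b ∈ ℬ', E b).ncard ≤ T.ncard + (⋃ b ∈ ℬ', E b).ncard :=
      Set.ncard_union_le _ _
    have h4 : (⋃ b ∈ ℬ', E b).ncard ≤ ∑ b ∈ ℬ', (E b).ncard :=
      Finset.set_ncard_biUnion_le _ _
    exact_mod_cast h2.trans (h3.trans (Nat.add_le_add_left h4 _))
  have h2 : ∀ b ∈ ℬ', ((E b).ncard : ℝ) ≤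
      2 ^ (m * l ^ k) * ((m : ℝ) / (2 * (l : ℝ) ^ (m + 1))) := by
    intro b hb
    rw [hℬ', Finset.mem_filter, hℬ, Finset.mem_filter] at hb
    exact count_big c hcc hc 𝒢 hcomm htr l m k hk hm hlm hg b hb.1.2.1 hb.2
  have h3 : ∑ b ∈ ℬ', ((E b).ncard : ℝ) ≤ 2 ^ (m * l ^ k) * (m / (2 * l)) := by
    calc ∑ b ∈ ℬ', ((E b).ncard : ℝ) ≤ ∑ _b ∈ ℬ', (2 : ℝ) ^ (m * l ^ k) *
          ((m : ℝ) / (2 * (l : ℝ) ^ (m + 1))) := Finset.sum_le_sum h2
      _ = ℬ'.card * (2 ^ (m * l ^ k) * ((m : ℝ) / (2 * (l : ℝ) ^ (m + 1)))) := by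
          rw [Finset.sum_const, nsmul_eq_mul]
      _ ≤ (l : ℝ) ^ m * (2 ^ (m * l ^ k) * ((m : ℝ) / (2 * (l : ℝ) ^ (m + 1)))) := by
          refine mul_le_mul_of_nonneg_right ?_ (by positivity)
          have h4 : ℬ'.card ≤ l ^ m := (Finset.card_filter_le _ _).trans hℬcard
          exact_mod_cast h4
      _ = 2 ^ (m * l ^ k) * (m / (2 * l)) := by
          rw [pow_succ]
          field_simp
  have h4 : (T.ncard : ℝ) ≤ 2 ^ (m * l ^ k) * (m / l + m * (1 / Real.sqrt ((l ^ k : ℕ) : ℝ))) := by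
    refine inv_count c hcc 𝒢 hcomm htr (m * l ^ k) hg1 hg l hodd (nclos 𝒢 P) (nclos_le 𝒢 P hPG)
      (nclos_conj 𝒢 P) (l ^ k) m hlk1 ?_ rfl
    intro x
    refine (hP x).trans ?_
    refine Nat.card_le_card_of_injective (fun y => ⟨y.1, by
      obtain ⟨π, hπ, h⟩ := y.2
      exact ⟨π, le_nclos 𝒢 P hπ, h⟩⟩) ?_
    intro y y' h
    have h' := congrArg Subtype.val h
    exact Subtype.ext h'
  have h5 : (S.ncard : ℝ) ≤ 2 ^ (m * l ^ k) * (m / l + m * (1 / Real.sqrt ((l ^ k : ℕ) : ℝ))) +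
      2 ^ (m * l ^ k) * (m / (2 * l)) := h1.trans (add_le_add h4 h3)
  refine h5.trans (le_of_eq ?_)
  rw [← mul_add, Nat.cast_pow]
  congr 1
  field_simp
  ring

end comb

open Pool.Agent.H38.CM

variable {K : Type} [Field K] [NumberField K]

open Classical in
/-- A CM type with a Hodge class that is not generated by divisor classes is orthogonal modulo `l` to the
translates of a function that is invariant under the `l`-group `P`. -/
theorem exists_mod [IsCMField K] (Φ : Set (K →+* ℂ)) (hΦ : IsCMType Φ) (p : ℕ) (h : ¬ DivGen Φ p)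
    (l : ℕ) (hl : l.Prime) (P : Subgroup (Equiv.Perm (K →+* ℂ))) (hPG : P ≤ autGrp K)
    (hPl : IsPGroup l P) :
    ∃ b : (K →+* ℂ) → ZMod l, b ≠ 0 ∧ (∀ σ, b (ComplexEmbedding.conjugate σ) = - b σ) ∧
      (∀ π ∈ P, ∀ σ, b (π σ) = b σ) ∧
      ∀ π ∈ autGrp K, ∑ σ, (if σ ∈ Φ then b (π σ) else 0) = 0 := by
  obtain ⟨W, hW, hperp⟩ := exists_simple Φ hΦ p h
  have hst := (isAutStable_iff W).1 hW.2.2.1
  obtain ⟨w, hw, hinv, σ₀, hσ₀⟩ := exists_fixed l hl P hPl W hW.1 (fun π hπ => hst π (hPG hπ))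
  refine ⟨fun σ => (w σ : ZMod l), ?_, ?_, hinv, ?_⟩
  · intro h0
    exact hσ₀ (congrFun h0 σ₀)
  · intro σ
    have h1 := hW.2.1 _ hw σ
    have h2 : w (ComplexEmbedding.conjugate σ) = - w σ := by exact_mod_cast h1
    show (w (ComplexEmbedding.conjugate σ) : ZMod l) = - (w σ : ZMod l)
    rw [h2]
    push_cast
    rfl
  · intro π hπ
    have h1 := hperp _ (hst π hπ _ hw)
    have h2 : ∑ σ, (if σ ∈ Φ then w (π σ) else 0) = 0 := by exact_mod_cast h1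
    have h3 := congrArg (fun t : ℤ => (t : ZMod l)) h2
    push_cast at h3
    exact h3

/-- CM fields of degree `2 m l^k`. -/
theorem large_prime [IsCMField K] (l m k : ℕ) (hl : l.Prime) (hm : 1 ≤ m) (hk : 1 ≤ k)
    (hlm : 10 * m ^ 2 ≤ l) (hg : finrank ℚ K = 2 * (m * l ^ k)) :
    (Nat.card {Φ : Set (K →+* ℂ) // IsCMType Φ ∧ ∃ p, ¬ DivGen Φ p} : ℝ) ≤
      2 ^ (m * l ^ k) * (m * (1 / Real.sqrt ((l : ℝ) ^ k) + 3 / (2 * l))) := by
  classical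
  have : Fact l.Prime := ⟨hl⟩
  have hl0 : (0 : ℝ) < l := by exact_mod_cast hl.pos
  rcases Nat.lt_or_ge m 2 with h1 | h1
  · have hm1 : m = 1 := by omega
    subst hm1
    rw [one_mul] at hg
    have h2 := prime_power l k hl hk hg (fun h => absurd hlm (by omega))
    rw [one_mul, Nat.cast_one, one_mul]
    have h3 : (l : ℝ) * (Nat.card {Φ : Set (K →+* ℂ) // IsCMType Φ ∧ ∃ p, ¬ DivGen Φ p} : ℝ) ≤
        2 ^ l ^ k := by exact_mod_cast h2
    have h4 : (Nat.card {Φ : Set (K →+* ℂ) // IsCMType Φ ∧ ∃ p, ¬ DivGen Φ p} : ℝ) ≤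
        2 ^ l ^ k / l := by
      rw [le_div_iff₀ hl0, mul_comm]
      exact h3
    refine h4.trans ?_
    rw [div_eq_mul_inv]
    refine mul_le_mul_of_nonneg_left ?_ (by positivity)
    have h5 : (l : ℝ)⁻¹ ≤ 3 / (2 * l) := by
      rw [le_div_iff₀ (by positivity), mul_comm 2 (l : ℝ), ← mul_assoc, inv_mul_cancel₀ hl0.ne']
      norm_num
    have h6 : 0 ≤ 1 / Real.sqrt ((l : ℝ) ^ k) := by positivity
    linarith
  · obtain ⟨P, hPG, hPl, hP⟩ := exists_sylow (autGrp K) autGrp_trans l m k hl hm (card_emb _ hg)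
    refine le_trans ?_ (comb_main (X := K →+* ℂ) ComplexEmbedding.conjugate conj_conj' conj_ne
      (autGrp K) autGrp_comm autGrp_trans l m k hk h1 hlm (card_emb _ hg) P hPG hPl hP)
    rw [Nat.cast_le]
    refine Nat.card_le_card_of_injective (fun Φ => ⟨Φ.1, Φ.2.1, ?_⟩) ?_
    · obtain ⟨Φ, hΦ, p, hp⟩ := Φ
      exact exists_mod Φ hΦ p hp l hl P hPG hPl
    · intro Φ Φ' h
      have h' := congrArg Subtype.val h
      exact Subtype.ext h'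

end Pool.Agent.H52.LP
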